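import Pool.Agent.Y163.MX.Fin

/-!
# The ranks of the powers of the monodromy operator: basic inequalities
-/

set_option autoImplicit false

open Module

namespace Pool.Agent.U865.WM

universe u v w

open Pool.Agent.Y143 Pool.Agent.Y163.MW Pool.Agent.Y163.MX Pool.Agent.Y136.UB

variable {Ω : Type w} [Field Ω] [CharZero Ω] {R : Coh.{v, w} Ω} {q : ℕ}

/-- The rank of `N ^ k` on `H^m`. -/
noncomputable def rk (R : Coh.{v, w} Ω) (m k : ℕ) : ℕ := finrank Ω ((R.gr m).map (R.N ^ k))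

/-- The rank of `N ^ k` on the generalized eigenspace for `α` in `H^m`. -/
noncomputable def rkA (R : Coh.{v, w} Ω) (m k : ℕ) (α : Ω) : ℕ :=
  finrank Ω ((R.pc (m, α)).map (R.N ^ k))

lemma N_pc (hq : 1 < q) (hR : R.IsCoh q) (m : ℕ) (α : Ω) :
    ∀ x ∈ R.pc (m, α), R.N x ∈ R.pc (m, α / q) := by
  intro y hy
  have hq0 : (q : Ω) ≠ 0 := Nat.cast_ne_zero.2 (by omega)
  obtain ⟨h1, h2⟩ := Submodule.mem_inf.1 hy
  refine Submodule.mem_inf.2 ⟨hR.N_gr m y h1, ?_⟩
  have h4 : y ∈ ((q : Ω)⁻¹ • R.F).maxGenEigenspace (α / q) := by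
    obtain ⟨k, hk⟩ := mem_gen.1 h2
    refine mem_gen.2 ⟨k, ?_⟩
    have e : (q : Ω)⁻¹ • R.F - algebraMap Ω (Module.End Ω R.V) (α / q) =
        (q : Ω)⁻¹ • (R.F - algebraMap Ω (Module.End Ω R.V) α) := by
      ext z
      simp only [LinearMap.sub_apply, LinearMap.smul_apply, Module.algebraMap_end_apply,
        smul_sub, smul_smul]
      rw [div_eq_inv_mul]
    rw [e, smul_pow, LinearMap.smul_apply, hk, smul_zero]
  refine gen_map R.N (fun z => ?_) h4
  rw [LinearMap.smul_apply, map_smul, hR.N_F, smul_smul, inv_mul_cancel₀ hq0, one_smul]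

lemma Npow_pc (hq : 1 < q) (hR : R.IsCoh q) (m k : ℕ) (α : Ω) :
    ∀ x ∈ R.pc (m, α), (R.N ^ k) x ∈ R.pc (m, α / (q : Ω) ^ k) := by
  induction k with
  | zero => intro x hx; simpa using hx
  | succ k ih =>
    intro x hx
    have e : R.N ^ (k + 1) = R.N * R.N ^ k := pow_succ' _ _
    rw [e, Module.End.mul_apply]
    have := N_pc hq hR m _ _ (ih x hx)
    rwa [div_div, ← pow_succ] at this

lemma rkA_le_left (hR : R.IsCoh q) (m k : ℕ) (α : Ω) : rkA R m k α ≤ mult R m α := by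
  have := hR.finite
  exact Submodule.finrank_map_le _ _

lemma rkA_le_right (hq : 1 < q) (hR : R.IsCoh q) (m k : ℕ) (α : Ω) :
    rkA R m k α ≤ mult R m (α / (q : Ω) ^ k) := by
  have := hR.finite
  refine Submodule.finrank_mono ?_
  rintro _ ⟨x, hx, rfl⟩
  exact Npow_pc hq hR m k α x hx

/-- The eigenvalues. -/
noncomputable def evs (hR : R.IsCoh q) (m : ℕ) : Finset Ω := (finite_mult hR m).toFinset

lemma mem_evs {hR : R.IsCoh q} {m : ℕ} {α : Ω} : α ∈ evs hR m ↔ mult R m α ≠ 0 := by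
  unfold evs
  rw [Set.Finite.mem_toFinset, Set.mem_ofPred_eq]

lemma finrank_biSup_le {K V I : Type*} [Field K] [AddCommGroup V] [Module K V]
    [Module.Finite K V] (W : I → Submodule K V) (s : Finset I) :
    finrank K (⨆ i ∈ s, W i : Submodule K V) ≤ ∑ i ∈ s, finrank K (W i) := by
  classical
  induction s using Finset.induction_on with
  | empty => simp
  | insert i s his ih =>
    rw [Finset.iSup_insert, Finset.sum_insert his]
    have := Submodule.finrank_add_le_finrank_add_finrank (W i) (⨆ i ∈ s, W i)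
    omega

lemma gr_eq_evs [IsAlgClosed Ω] (hR : R.IsCoh q) (m : ℕ) :
    R.gr m = ⨆ α ∈ evs hR m, R.pc (m, α) := by
  rw [Coh.gr_eq hR m]
  have := hR.finite
  apply le_antisymm
  · refine iSup_le fun α => ?_
    by_cases h : α ∈ evs hR m
    · exact le_iSup₂_of_le α h le_rfl
    · rw [mem_evs, not_not] at h
      have h1 : R.pc (m, α) = ⊥ := Submodule.finrank_eq_zero.1 h
      rw [h1]
      exact bot_le
  · exact iSup₂_le fun α _ => le_iSup (fun α => R.pc (m, α)) α

lemma rk_le_sum [IsAlgClosed Ω] (hR : R.IsCoh q) (m k : ℕ) :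
    rk R m k ≤ ∑ α ∈ evs hR m, rkA R m k α := by
  have := hR.finite
  unfold rk
  have e : (R.gr m).map (R.N ^ k) = ⨆ α ∈ evs hR m, (R.pc (m, α)).map (R.N ^ k) := by
    conv_lhs => rw [gr_eq_evs hR m, Submodule.map_iSup]
    refine iSup_congr fun α => ?_
    rw [Submodule.map_iSup]
  rw [e]
  exact finrank_biSup_le _ _

/-- Duality of the multiplicities. -/
lemma mult_dual [IsAlgClosed Ω] (hq : 1 < q) (hR : R.IsCoh q) (m : ℕ) (α : Ω) :
    mult R m ((q : Ω) ^ m / α) = mult R m α := by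
  have := hR.finite
  have hq0 : (q : Ω) ≠ 0 := Nat.cast_ne_zero.2 (by omega)
  have key : ∀ α : Ω, α ≠ 0 → mult R m α ≤ mult R m ((q : Ω) ^ m / α) := by
    intro α hα0
    obtain ⟨B, hB⟩ := hR.dual
    have hB0 : ∀ x, (∀ y, B x y = 0) → x = 0 := hB.nondeg
    have hB1 : ∀ m m' x y, x ∈ R.gr m → y ∈ R.gr m' → m ≠ m' → B x y = 0 := hB.orth
    have hB2 : ∀ m x y, x ∈ R.gr m → y ∈ R.gr m → B (R.F x) (R.F y) = (q : Ω) ^ m * B x y :=
      hB.frob
    let φ : R.pc (m, α) →ₗ[Ω] Module.Dual Ω (R.pc (m, (q : Ω) ^ m / α)) :=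
      { toFun := fun x => (B x).comp (R.pc (m, (q : Ω) ^ m / α)).subtype
        map_add' := fun x y => by ext z; simp
        map_smul' := fun a x => by ext z; simp }
    have hφ : Function.Injective φ := by
      rw [← LinearMap.ker_eq_bot, LinearMap.ker_eq_bot']
      intro x hx
      apply Subtype.ext
      apply hB0
      have h1 : ∀ m' β, ∀ y ∈ R.pc (m', β), B x y = 0 := by
        intro m' β y hy
        by_cases hm : m = m'
        · subst hm
          by_cases hβ : β = (q : Ω) ^ m / α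
          · subst hβ
            exact DFunLike.congr_fun hx ⟨y, hy⟩
          · refine gen_orth (hR.F_gr m) (hB2 m) ?_ (Submodule.mem_inf.1 x.2).1
              (Submodule.mem_inf.1 hy).1 (Submodule.mem_inf.1 x.2).2 (Submodule.mem_inf.1 hy).2
            intro h
            exact hβ ((eq_div_iff hα0).2 (by rw [mul_comm]; exact h))
        · exact hB1 m m' x y (Submodule.mem_inf.1 x.2).1 (Submodule.mem_inf.1 hy).1 hm
      intro y
      have h8 : (⊤ : Submodule Ω R.V) ≤ LinearMap.ker (B x) := by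
        rw [← hR.isInternal.submodule_iSup_eq_top]
        refine iSup_le fun m' => ?_
        rw [Coh.gr_eq hR m']
        exact iSup_le fun c' y hy => LinearMap.mem_ker.2 (h1 m' c' y hy)
      exact LinearMap.mem_ker.1 (h8 (Submodule.mem_top))
    have := LinearMap.finrank_le_finrank_of_injective hφ
    rwa [Subspace.dual_finrank_eq] at this
  by_cases hα0 : α = 0
  · rw [hα0, div_zero]
  · have h1 := key α hα0
    have h2 := key ((q : Ω) ^ m / α) (div_ne_zero (pow_ne_zero _ hq0) hα0)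
    have h3 : (q : Ω) ^ m / ((q : Ω) ^ m / α) = α := by
      field_simp
    rw [h3] at h2
    omega

lemma evs_ne_zero (hq : 1 < q) {hR : R.IsCoh q} {m : ℕ} {α : Ω} (h : α ∈ evs hR m) : α ≠ 0 := by
  rw [mem_evs] at h
  have : ∃ w : ℤ, IsWeilNumber q w α := by
    by_contra hcon
    exact h (mult_eq_zero hR hcon)
  obtain ⟨w, hw⟩ := this
  exact weil_ne_zero (by omega) hw

/-- Reindexing by duality. -/
lemma sum_dual [IsAlgClosed Ω] (hq : 1 < q) (hR : R.IsCoh q) (m : ℕ) (g : Ω → ℝ) :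
    ∑ α ∈ evs hR m, g ((q : Ω) ^ m / α) * mult R m α = ∑ α ∈ evs hR m, g α * mult R m α := by
  have hq0 : (q : Ω) ≠ 0 := Nat.cast_ne_zero.2 (by omega)
  have hinv : ∀ α : Ω, α ≠ 0 → (q : Ω) ^ m / ((q : Ω) ^ m / α) = α := by
    intro α hα
    field_simp
  refine Finset.sum_bij (fun α _ => (q : Ω) ^ m / α) ?_ ?_ ?_ ?_
  · intro α hα
    rw [mem_evs] at hα ⊢
    rwa [mult_dual hq hR]
  · intro α hα β hβ h
    rw [← hinv α (evs_ne_zero hq hα), ← hinv β (evs_ne_zero hq hβ), h]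
  · intro β hβ
    refine ⟨(q : Ω) ^ m / β, ?_, hinv β (evs_ne_zero hq hβ)⟩
    rw [mem_evs] at hβ ⊢
    rwa [mult_dual hq hR]
  · intro α hα
    rw [mult_dual hq hR]

/-- A position function: `x (α / q) = x α - 2`, `x (q ^ m / α) = - x α`. -/
structure IsPos (hR : R.IsCoh q) (m : ℕ) (x : Ω → ℝ) : Prop where
  step : ∀ k : ℕ, ∀ α ∈ evs hR m, x (α / (q : Ω) ^ k) = x α - 2 * k
  dual : ∀ α ∈ evs hR m, x ((q : Ω) ^ m / α) = - x α

/-- The general inequality. -/
theorem rk_le [IsAlgClosed Ω] (hq : 1 < q) (hR : R.IsCoh q) {m : ℕ} {x : Ω → ℝ}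
    (hx : IsPos hR m x) {θ : ℝ → ℝ} (h0 : ∀ y, 0 ≤ θ y) (h1 : ∀ y, θ y ≤ 1)
    (hs : ∀ y, θ (-y) = 1 - θ y) (k : ℕ) :
    (rk R m k : ℝ) ≤ ∑ α ∈ evs hR m, (rkA R m k α : ℝ) ∧
    ∑ α ∈ evs hR m, (rkA R m k α : ℝ) ≤ ∑ α ∈ evs hR m, (θ (x α - k) * mult R m α +
        (1 - θ (x α - k)) * mult R m (α / (q : Ω) ^ k)) ∧
    ∑ α ∈ evs hR m, (θ (x α - k) * mult R m α +
        (1 - θ (x α - k)) * mult R m (α / (q : Ω) ^ k)) ≤
      2 * ∑ α ∈ evs hR m, θ (x α - k) * mult R m α := by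
  classical
  have hq0 : (q : Ω) ≠ 0 := Nat.cast_ne_zero.2 (by omega)
  refine ⟨by exact_mod_cast rk_le_sum hR m k, ?_, ?_⟩
  · refine Finset.sum_le_sum fun α _ => ?_
    have a1 : (rkA R m k α : ℝ) ≤ mult R m α := by exact_mod_cast rkA_le_left hR m k α
    have a2 : (rkA R m k α : ℝ) ≤ mult R m (α / (q : Ω) ^ k) := by
      exact_mod_cast rkA_le_right hq hR m k α
    have b1 := h0 (x α - k)
    have b2 := h1 (x α - k)
    nlinarith [mul_le_mul_of_nonneg_left a1 b1, mul_le_mul_of_nonneg_left a2 (sub_nonneg.2 b2)]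
  · rw [Finset.sum_add_distrib, two_mul]
    refine add_le_add le_rfl ?_
    -- reindex
    have e1 : ∑ α ∈ evs hR m, (1 - θ (x α - k)) * (mult R m (α / (q : Ω) ^ k) : ℝ) =
        ∑ α ∈ (evs hR m).filter (fun α => α / (q : Ω) ^ k ∈ evs hR m),
          (1 - θ (x α - k)) * (mult R m (α / (q : Ω) ^ k) : ℝ) := by
      rw [Finset.sum_filter]
      refine Finset.sum_congr rfl fun α _ => ?_
      split_ifs with h
      · rfl
      · rw [mem_evs, not_not] at h
        rw [h]
        simp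
    have e2 : ∑ α ∈ (evs hR m).filter (fun α => α / (q : Ω) ^ k ∈ evs hR m),
          (1 - θ (x α - k)) * (mult R m (α / (q : Ω) ^ k) : ℝ) =
        ∑ β ∈ ((evs hR m).filter (fun α => α / (q : Ω) ^ k ∈ evs hR m)).image
          (fun α => α / (q : Ω) ^ k), θ (-x β - k) * (mult R m β : ℝ) := by
      rw [Finset.sum_image]
      · refine Finset.sum_congr rfl fun α hα => ?_
        rw [hx.step k α (Finset.mem_filter.1 hα).1, ← hs]
        congr 2
        ring
      · intro α _ β _ h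
        have h' : α / (q : Ω) ^ k = β / (q : Ω) ^ k := h
        exact (div_left_inj' (pow_ne_zero _ hq0)).1 h'
    rw [e1, e2]
    calc ∑ β ∈ ((evs hR m).filter (fun α => α / (q : Ω) ^ k ∈ evs hR m)).image
          (fun α => α / (q : Ω) ^ k), θ (-x β - k) * (mult R m β : ℝ)
        ≤ ∑ β ∈ evs hR m, θ (-x β - k) * (mult R m β : ℝ) := by
          refine Finset.sum_le_sum_of_subset_of_nonneg ?_ ?_
          · intro β hβ
            obtain ⟨α, hα, rfl⟩ := Finset.mem_image.1 hβ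
            exact (Finset.mem_filter.1 hα).2
          · intro β _ _
            exact mul_nonneg (h0 _) (Nat.cast_nonneg _)
      _ = ∑ β ∈ evs hR m, θ (x ((q : Ω) ^ m / β) - k) * (mult R m β : ℝ) := by
          refine Finset.sum_congr rfl fun β hβ => ?_
          rw [hx.dual β hβ]
      _ = ∑ α ∈ evs hR m, θ (x α - k) * (mult R m α : ℝ) :=
          sum_dual hq hR m (fun β => θ (x β - k))

end Pool.Agent.U865.WM
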