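import Pool.Agent.U865.WM.Mom

/-!
# Weights, slopes and Hodge numbers: sums of positive parts
-/

set_option autoImplicit false

open Module

namespace Pool.Agent.U865.WM

universe u v w

open Pool.Agent.Y143 Pool.Agent.Y163.MW Pool.Agent.Y163.MX Pool.Agent.Y136.UB

/-- The inequality of Karamata for the positive part. -/
theorem karamata_pos {n : ℕ} (v a : Fin n → ℝ) (hv : Monotone v)
    (hle : ∀ k : ℕ, ∑ i ∈ Finset.univ.filter (fun i : Fin n => (i : ℕ) < k), a i ≤
      ∑ i ∈ Finset.univ.filter (fun i : Fin n => (i : ℕ) < k), v i)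
    (heq : ∑ i, a i = ∑ i, v i) (s : ℝ) :
    ∑ i, max 0 (v i - s) ≤ ∑ i, max 0 (a i - s) := by
  classical
  -- the number of indices with `v i ≤ s`
  let k : ℕ := (Finset.univ.filter (fun i : Fin n => v i ≤ s)).card
  have hk : ∀ i : Fin n, (i : ℕ) < k ↔ v i ≤ s := by
    intro i
    constructor
    · intro hi
      by_contra hcon
      push Not at hcon
      have h1 : Finset.univ.filter (fun j : Fin n => v j ≤ s) ⊆
          Finset.univ.filter (fun j : Fin n => (j : ℕ) < i) := by
        intro j hj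
        rw [Finset.mem_filter] at hj ⊢
        refine ⟨Finset.mem_univ _, ?_⟩
        by_contra h2
        have h3 : i ≤ j := by
          rw [Fin.le_def]
          omega
        have := hv h3
        linarith [hj.2]
      have h2 := Finset.card_le_card h1
      have h3 : (Finset.univ.filter (fun j : Fin n => (j : ℕ) < i)).card ≤ i := by
        have h4 : (Finset.univ.filter (fun j : Fin n => (j : ℕ) < i)).image
            (fun j : Fin n => (j : ℕ)) ⊆ Finset.range i := by
          intro j hj
          obtain ⟨l, hl, rfl⟩ := Finset.mem_image.1 hj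
          exact Finset.mem_range.2 (Finset.mem_filter.1 hl).2
        have h5 := Finset.card_le_card h4
        rw [Finset.card_range, Finset.card_image_of_injective _ Fin.val_injective] at h5
        exact h5
      have h4 : k ≤ i := h2.trans h3
      omega
    · intro hi
      have h1 : Finset.univ.filter (fun j : Fin n => (j : ℕ) < (i : ℕ) + 1) ⊆
          Finset.univ.filter (fun j : Fin n => v j ≤ s) := by
        intro j hj
        rw [Finset.mem_filter] at hj ⊢
        refine ⟨Finset.mem_univ _, ?_⟩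
        have h3 : j ≤ i := by
          rw [Fin.le_def]
          omega
        exact (hv h3).trans hi
      have h2 := Finset.card_le_card h1
      have h3 : (i : ℕ) + 1 ≤ (Finset.univ.filter (fun j : Fin n => (j : ℕ) < (i : ℕ) + 1)).card := by
        have h4 : Finset.range ((i : ℕ) + 1) ⊆
            (Finset.univ.filter (fun j : Fin n => (j : ℕ) < (i : ℕ) + 1)).image
              (fun j : Fin n => (j : ℕ)) := by
          intro j hj
          rw [Finset.mem_range] at hj
          exact Finset.mem_image.2 ⟨⟨j, by omega⟩,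
            Finset.mem_filter.2 ⟨Finset.mem_univ _, hj⟩, rfl⟩
        have h5 := Finset.card_le_card h4
        rw [Finset.card_range, Finset.card_image_of_injective _ Fin.val_injective] at h5
        exact h5
      exact lt_of_lt_of_le (Nat.lt_succ_self _) (h3.trans h2)
  have e1 : ∑ i, max 0 (v i - s) =
      ∑ i ∈ Finset.univ.filter (fun i : Fin n => ¬ (i : ℕ) < k), (v i - s) := by
    rw [Finset.sum_filter]
    refine Finset.sum_congr rfl fun i _ => ?_
    by_cases h : (i : ℕ) < k
    · rw [if_neg (not_not.2 h), max_eq_left]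
      have := (hk i).1 h
      linarith
    · rw [if_pos h, max_eq_right]
      have := (hk i).not.1 h
      linarith
  have e2 : ∑ i ∈ Finset.univ.filter (fun i : Fin n => ¬ (i : ℕ) < k), v i ≤
      ∑ i ∈ Finset.univ.filter (fun i : Fin n => ¬ (i : ℕ) < k), a i := by
    have h1 := Finset.sum_filter_add_sum_filter_not Finset.univ (fun i : Fin n => (i : ℕ) < k) v
    have h2 := Finset.sum_filter_add_sum_filter_not Finset.univ (fun i : Fin n => (i : ℕ) < k) a
    have h3 := hle k
    linarith
  have e3 : ∑ i ∈ Finset.univ.filter (fun i : Fin n => ¬ (i : ℕ) < k), (a i - s) ≤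
      ∑ i, max 0 (a i - s) := by
    calc ∑ i ∈ Finset.univ.filter (fun i : Fin n => ¬ (i : ℕ) < k), (a i - s)
        ≤ ∑ i ∈ Finset.univ.filter (fun i : Fin n => ¬ (i : ℕ) < k), max 0 (a i - s) :=
          Finset.sum_le_sum fun i _ => le_max_right _ _
      _ ≤ ∑ i, max 0 (a i - s) := Finset.sum_le_sum_of_subset_of_nonneg
          (Finset.filter_subset _ _) fun i _ _ => le_max_left _ _
  rw [e1]
  rw [Finset.sum_sub_distrib] at e3 ⊢
  linarith

variable {Ω : Type w} [Field Ω] [CharZero Ω] {R : Coh.{v, w} Ω} {q : ℕ}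

/-- The sum of the `(2 λ - m - t)⁺` over the slopes `λ` of `F` on `H^m`. -/
noncomputable def slopeExcess (R : Coh.{v, w} Ω) (val : Ω → ℝ) (m : ℕ) (t : ℝ) : ℝ :=
  ∑ᶠ α : Ω, max 0 (2 * val α - m - t) * (mult R m α : ℝ)

/-- The sum of the `(2 a - m - t)⁺ h^(a, m - a) = (a - b - t)⁺ h^(a, b)`, `a + b = m`. -/
noncomputable def hodgeExcess (hdg : ℕ → ℕ) (m : ℕ) (t : ℤ) : ℕ :=
  ∑ᶠ a : ℕ, (2 * (a : ℤ) - m - t).toNat * hdg a

lemma slopeExcess_eq (hR : R.IsCoh q) (val : Ω → ℝ) (m : ℕ) (t : ℝ) :
    slopeExcess R val m t = ∑ α ∈ evs hR m, max 0 (vpos val m α - t) * mult R m α := by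
  unfold slopeExcess vpos
  rw [finsum_evs hR m (fun α => max 0 (2 * val α - m - t))]

/-- The ranks of the powers of `N` and the slopes. -/
theorem rankSum_le_slope [IsAlgClosed Ω] (hq : 1 < q) (hR : R.IsCoh q) {val : Ω → ℝ}
    (hv : IsVal q val) (m t M : ℕ) : (rankSumFrom R m t M : ℝ) ≤ slopeExcess R val m t := by
  rw [slopeExcess_eq hR]
  have h := sum_rk_le hq hR (isPos_vpos hq hR hv m) t M
  unfold rankSumFrom
  push_cast
  exact h

omit [CharZero Ω] in
/-- The slopes and the Hodge numbers. -/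
theorem slope_le_hodge {val : Ω → ℝ} {m : ℕ} {hdg : ℕ → ℕ}
    (h : NewtonAboveHodge R val m hdg) (t : ℤ) :
    slopeExcess R val m t ≤ (hodgeExcess hdg m t : ℝ) := by
  classical
  obtain ⟨n, α, a, hα, ha, hmv, hma, hle, heq⟩ := h
  have h1 : slopeExcess R val m t = ∑ i, max 0 (2 * val (α i) - m - t) := by
    rw [← finsum_fib α (fun x => max 0 (2 * val x - (m : ℝ) - t))]
    unfold slopeExcess
    refine finsum_congr fun x => ?_
    rw [hα]
  have h2 : (hodgeExcess hdg m t : ℝ) = ∑ i, max 0 (2 * (a i : ℝ) - m - t) := by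
    have h3 : hodgeExcess hdg m t = ∑ i, (2 * (a i : ℤ) - m - t).toNat := by
      unfold hodgeExcess
      rw [finsum_congr (fun c => by rw [← ha c])]
      rw [finsum_eq_sum_of_support_subset (s := Finset.univ.image a)]
      · rw [← Finset.sum_fiberwise_of_maps_to (s := Finset.univ) (t := Finset.univ.image a)
          (g := a) (fun g _ => Finset.mem_image_of_mem _ (Finset.mem_univ _))]
        refine Finset.sum_congr rfl fun c _ => ?_
        rw [Finset.sum_congr rfl (g := fun _ => (2 * (c : ℤ) - m - t).toNat)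
          (fun g hg => by rw [(Finset.mem_filter.1 hg).2]), Finset.sum_const, smul_eq_mul,
          mul_comm]
        congr 1
        rw [Nat.card_eq_fintype_card, Fintype.card_subtype]
      · intro c hc
        rw [Function.mem_support] at hc
        by_contra hcon
        apply hc
        have : IsEmpty {g // a g = c} := ⟨fun g => hcon (by
          rw [Finset.coe_image]
          exact ⟨g.1, Finset.mem_coe.2 (Finset.mem_univ _), g.2⟩)⟩
        rw [Nat.card_of_isEmpty]
        simp
    rw [h3]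
    push_cast
    refine Finset.sum_congr rfl fun i _ => ?_
    rcases le_total 0 (2 * (a i : ℤ) - m - t) with h | h
    · have h4 : (((2 * (a i : ℤ) - m - t).toNat : ℤ) : ℝ) = ((2 * (a i : ℤ) - m - t : ℤ) : ℝ) := by
        rw [Int.toNat_of_nonneg h]
      have h5 : (0 : ℝ) ≤ 2 * (a i : ℝ) - m - t := by exact_mod_cast h
      rw [max_eq_right h5]
      push_cast at h4
      exact_mod_cast h4
    · have h5 : 2 * (a i : ℝ) - m - t ≤ 0 := by exact_mod_cast h
      rw [max_eq_left h5, Int.toNat_of_nonpos h]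
      simp
  have h4 := karamata_pos (fun i => val (α i)) (fun i => (a i : ℝ)) hmv hle heq ((m + t) / 2)
  have h5 : ∀ y : ℝ, max 0 (2 * y - m - t) = 2 * max 0 (y - (m + t) / 2) := by
    intro y
    rcases le_total 0 (y - (m + t) / 2) with h | h
    · rw [max_eq_right h, max_eq_right (by linarith)]
      ring
    · rw [max_eq_left h, max_eq_left (by linarith)]
      ring
  rw [h1, h2]
  simp only [h5]
  rw [← Finset.mul_sum, ← Finset.mul_sum]
  linarith

/-- Conjugation: the eigenvalues `α` and `q ^ w / α`, `w` the weight of `α`. -/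
lemma sum_conj (hq : 1 < q) (hR : R.IsCoh q) {m : ℕ} (hrat : RationalPoly (charP R m))
    (g : Ω → ℝ) : ∑ α ∈ evs hR m, g ((q : Ω) ^ (Coh.wtf q α) / α) * mult R m α =
      ∑ α ∈ evs hR m, g α * mult R m α := by
  have hq0 : (q : Ω) ≠ 0 := Nat.cast_ne_zero.2 (by omega)
  let ι : Ω → Ω := fun α => (q : Ω) ^ (Coh.wtf q α) / α
  have hw : ∀ α ∈ evs hR m, IsWeilNumber q (Coh.wtf q α) α := by
    intro α hα
    obtain ⟨w, hw⟩ := evs_weil hα
    rwa [Coh.wtf_eq hq hw]
  have hm : ∀ α ∈ evs hR m, mult R m (ι α) = mult R m α := fun α hα =>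
    mult_conj hq hR hrat (hw α hα)
  have hwι : ∀ α ∈ evs hR m, Coh.wtf q (ι α) = Coh.wtf q α := fun α hα =>
    Coh.wtf_eq hq (weil_conj hq (hw α hα))
  have hι : ∀ α ∈ evs hR m, ι α ∈ evs hR m := by
    intro α hα
    rw [mem_evs, hm α hα]
    exact mem_evs.1 hα
  have hιι : ∀ α ∈ evs hR m, ι (ι α) = α := by
    intro α hα
    have hα0 : α ≠ 0 := evs_ne_zero hq hα
    show (q : Ω) ^ (Coh.wtf q (ι α)) / ι α = α
    rw [hwι α hα]
    show (q : Ω) ^ (Coh.wtf q α) / ((q : Ω) ^ (Coh.wtf q α) / α) = α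
    have := zpow_ne_zero (Coh.wtf q α) hq0
    field_simp
  refine Finset.sum_bij (fun α _ => ι α) (fun α hα => hι α hα) ?_ ?_ ?_
  · intro α hα β hβ h
    rw [← hιι α hα, ← hιι β hβ, h]
  · intro α hα
    exact ⟨ι α, hι α hα, hιι α hα⟩
  · intro α hα
    rw [hm α hα]

lemma val_conj (hq : 1 < q) {hR : R.IsCoh q} {m : ℕ} {val : Ω → ℝ} (hv : IsVal q val) {α : Ω}
    (hα : α ∈ evs hR m) : val ((q : Ω) ^ (Coh.wtf q α) / α) = Coh.wtf q α - val α := by
  have hq0 : (q : Ω) ≠ 0 := Nat.cast_ne_zero.2 (by omega)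
  have hα0 := evs_ne_zero hq hα
  rw [val_div hv (zpow_ne_zero _ hq0) hα0]
  congr 1
  rcases le_total 0 (Coh.wtf q α) with hn | hn
  · obtain ⟨k, hk⟩ := Int.eq_ofNat_of_zero_le hn
    rw [hk, zpow_natCast, val_pow hv hq]
    simp
  · obtain ⟨k, hk⟩ : ∃ k : ℕ, Coh.wtf q α = -(k : ℤ) := ⟨(Coh.wtf q α).natAbs, by omega⟩
    rw [hk, zpow_neg, zpow_natCast, ← one_div, val_div hv one_ne_zero (pow_ne_zero _ hq0),
      val_pow hv hq]
    have h5 := val_pow hv hq 0
    rw [pow_zero] at h5
    rw [h5]
    push_cast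
    ring

/-- The weights and the slopes, with the case of equality: the slopes of `α` and of its conjugate
lie on the same side. -/
theorem weight_le_slope [IsAlgClosed Ω] (hq : 1 < q) (hR : R.IsCoh q) {m : ℕ}
    (hrat : RationalPoly (charP R m)) {val : Ω → ℝ} (hv : IsVal q val) (t : ℤ) :
    (weightExcess R q m t : ℝ) ≤ slopeExcess R val m t ∧
      (slopeExcess R val m t ≤ (weightExcess R q m t : ℝ) → ∀ α ∈ evs hR m,
        ((m : ℝ) + t < Coh.wtf q α → (m : ℝ) + t ≤ 2 * val α) ∧
        ((Coh.wtf q α : ℝ) < m + t → 2 * val α ≤ m + t) ∧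
        ((Coh.wtf q α : ℝ) = m + t → 2 * val α = m + t)) := by
  have h1 : 2 * slopeExcess R val m t = ∑ α ∈ evs hR m, (max 0 (vpos val m α - t) +
      max 0 (2 * Coh.wtf q α - 2 * val α - m - t)) * mult R m α := by
    simp only [add_mul]
    rw [Finset.sum_add_distrib, ← slopeExcess_eq hR, two_mul]
    congr 1
    rw [slopeExcess_eq hR, ← sum_conj hq hR hrat (fun α => max 0 (vpos val m α - t))]
    refine Finset.sum_congr rfl fun α hα => ?_
    unfold vpos
    rw [val_conj hq hv hα]
    congr 2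
    ring
  have h2 : 2 * (weightExcess R q m t : ℝ) =
      ∑ α ∈ evs hR m, (2 * max 0 (wpos q m α - t)) * mult R m α := by
    rw [weightExcess_eq hq hR, Finset.mul_sum]
    exact Finset.sum_congr rfl fun α _ => by ring
  have hpt : ∀ α ∈ evs hR m, 2 * max 0 (wpos q m α - t) ≤ max 0 (vpos val m α - t) +
      max 0 (2 * Coh.wtf q α - 2 * val α - m - t) := by
    intro α _
    unfold vpos wpos
    push_cast
    rcases le_total 0 ((Coh.wtf q α : ℝ) - m - t) with h | h
    · rw [max_eq_right h]
      have a1 := le_max_right 0 (2 * val α - m - t)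
      have a2 := le_max_right 0 (2 * (Coh.wtf q α : ℝ) - 2 * val α - m - t)
      linarith
    · rw [max_eq_left h]
      have a1 := le_max_left 0 (2 * val α - m - t)
      have a2 := le_max_left 0 (2 * (Coh.wtf q α : ℝ) - 2 * val α - m - t)
      linarith
  have hle : ∀ α ∈ evs hR m, (2 * max 0 (wpos q m α - t)) * (mult R m α : ℝ) ≤
      (max 0 (vpos val m α - t) + max 0 (2 * Coh.wtf q α - 2 * val α - m - t)) * mult R m α :=
    fun α hα => mul_le_mul_of_nonneg_right (hpt α hα) (Nat.cast_nonneg _)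
  have h3 := Finset.sum_le_sum hle
  rw [← h1, ← h2] at h3
  refine ⟨by linarith, fun h4 α hα => ?_⟩
  have h5 : ∑ α ∈ evs hR m, (2 * max 0 (wpos q m α - t)) * (mult R m α : ℝ) =
      ∑ α ∈ evs hR m, (max 0 (vpos val m α - t) +
        max 0 (2 * Coh.wtf q α - 2 * val α - m - t)) * mult R m α := by
    rw [← h1, ← h2]
    linarith
  have h6 := (Finset.sum_eq_sum_iff_of_le hle).1 h5 α hα
  have h7 : (mult R m α : ℝ) ≠ 0 := Nat.cast_ne_zero.2 (mem_evs.1 hα)
  have h8 := mul_right_cancel₀ h7 h6
  unfold vpos wpos at h8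
  push_cast at h8
  have a1 := le_max_right 0 (2 * val α - (m : ℝ) - t)
  have a2 := le_max_right 0 (2 * (Coh.wtf q α : ℝ) - 2 * val α - m - t)
  have a3 := le_max_left 0 (2 * val α - (m : ℝ) - t)
  have a4 := le_max_left 0 (2 * (Coh.wtf q α : ℝ) - 2 * val α - m - t)
  refine ⟨fun h => ?_, fun h => ?_, fun h => ?_⟩
  · rw [max_eq_right (a := (0 : ℝ)) (b := (Coh.wtf q α : ℝ) - m - t) (by linarith)] at h8
    by_contra hcon
    push Not at hcon
    linarith
  · rw [max_eq_left (a := (0 : ℝ)) (b := (Coh.wtf q α : ℝ) - m - t) (by linarith)] at h8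
    linarith
  · rw [max_eq_left (a := (0 : ℝ)) (b := (Coh.wtf q α : ℝ) - m - t) (by linarith)] at h8
    apply le_antisymm
    · linarith
    · linarith

end Pool.Agent.U865.WM
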