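import Pool.Agent.U865.WM.Hodge

/-!
# Independence of the prime number `ℓ`
-/

set_option autoImplicit false

open Module

namespace Pool.Agent.U865.WM

universe u v w

open Pool.Agent.Y143 Pool.Agent.Y163.MW Pool.Agent.Y163.MX Pool.Agent.Y136.UB

/-- The number (with multiplicities) of the complex roots of `C` of absolute value `q ^ (n / 2)`. -/
noncomputable def absNum (C : Polynomial ℚ) (q : ℕ) (n : ℤ) : ℕ := by
  classical
  exact Multiset.card ((C.aroots ℂ).filter (fun z => ‖z‖ = (q : ℝ) ^ ((n : ℝ) / 2)))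

section

variable {Ω : Type w} [Field Ω] [CharZero Ω]

/-- The roots in `Ω` and in `ℂ`. -/
lemma card_weil [IsAlgClosed Ω] {q : ℕ} (hq : 1 < q) (C : Polynomial ℚ)
    (h : ∀ α ∈ C.aroots Ω, ∃ w' : ℤ, IsWeilNumber q w' α) (n : ℤ)
    [DecidablePred (fun α : Ω => IsWeilNumber q n α)] :
    Multiset.card ((C.aroots Ω).filter (fun α => IsWeilNumber q n α)) = absNum C q n := by
  classical
  let E := C.SplittingField
  have hs : (C.map (algebraMap ℚ E)).Splits := Polynomial.SplittingField.splits C
  let φ : E →ₐ[ℚ] Ω := IsAlgClosed.lift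
  let ψ : E →ₐ[ℚ] ℂ := IsAlgClosed.lift
  have h1 : C.aroots Ω = (C.aroots E).map φ := by
    have e := hs.roots_map (φ : E →+* Ω)
    rw [Polynomial.map_map] at e
    rw [Polynomial.aroots_def, Polynomial.aroots_def]
    have e2 : (φ : E →+* Ω).comp (algebraMap ℚ E) = algebraMap ℚ Ω := RingHom.ext fun x => φ.commutes x
    rw [e2] at e
    exact e
  have h2 : C.aroots ℂ = (C.aroots E).map ψ := by
    have e := hs.roots_map (ψ : E →+* ℂ)
    rw [Polynomial.map_map] at e
    rw [Polynomial.aroots_def, Polynomial.aroots_def]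
    have e2 : (ψ : E →+* ℂ).comp (algebraMap ℚ E) = algebraMap ℚ ℂ := RingHom.ext fun x => ψ.commutes x
    rw [e2] at e
    exact e
  unfold absNum
  rw [h1] at h ⊢
  rw [h2, Multiset.filter_map, Multiset.filter_map, Multiset.card_map, Multiset.card_map]
  congr 1
  refine Multiset.filter_congr fun e he => ?_
  obtain ⟨w', hw'⟩ := h (φ e) (Multiset.mem_map_of_mem _ he)
  have hmin : minpoly ℚ (φ e) = minpoly ℚ e := minpoly.algHom_eq φ φ.injective e
  have hroot : Polynomial.aeval (ψ e) (minpoly ℚ (φ e)) = 0 := by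
    rw [hmin, Polynomial.aeval_algHom_apply, minpoly.aeval, map_zero]
  simp only [Function.comp_apply]
  constructor
  · intro hn
    exact hn.2 _ hroot
  · intro hn
    have h3 := hw'.2 _ hroot
    rw [hn] at h3
    have hq' : (1 : ℝ) < q := by exact_mod_cast hq
    have h4 := (Real.strictMono_rpow_of_base_gt_one hq').injective h3
    have h5 : (n : ℝ) = w' := by linarith
    have h6 : n = w' := by exact_mod_cast h5
    rw [h6]
    exact hw'

variable {R : Coh.{v, w} Ω} {q : ℕ}

/-- The number of eigenvalues of given weight is the number of complex roots of given absolute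
value. -/
theorem finrank_exc_abs [IsAlgClosed Ω] (hq : 1 < q) (hR : R.IsCoh q) {m : ℕ} {C : Polynomial ℚ}
    (hC : charP R m = C.map (algebraMap ℚ Ω)) (c : ℤ) :
    finrank Ω (R.exc q m c) = absNum C q (m + c) := by
  classical
  have hcount : ∀ α, Multiset.count α (C.aroots Ω) = mult R m α := by
    intro α
    rw [Polynomial.aroots_def, ← hC, Polynomial.count_roots, rootMultiplicity_charP hR]
  have hmem : ∀ α, α ∈ C.aroots Ω ↔ α ∈ evs hR m := by
    intro α
    rw [mem_evs, ← hcount, Multiset.count_ne_zero]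
  have hw : ∀ α ∈ C.aroots Ω, ∃ w' : ℤ, IsWeilNumber q w' α := fun α hα =>
    evs_weil ((hmem α).1 hα)
  rw [← card_weil hq C hw (m + c)]
  have h1 := finrank_exc_eq hq hR m c
  have h2 : (Multiset.card ((C.aroots Ω).filter (fun α => IsWeilNumber q (m + c) α)) : ℝ) =
      ∑ α ∈ evs hR m, ind (Coh.wtf q α - m = c) * mult R m α := by
    rw [← Multiset.toFinset_sum_count_eq]
    push_cast
    have h3 : ((C.aroots Ω).filter (fun α => IsWeilNumber q (m + c) α)).toFinset ⊆ evs hR m := by
      intro α hα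
      rw [Multiset.mem_toFinset, Multiset.mem_filter] at hα
      exact (hmem α).1 hα.1
    rw [Finset.sum_subset h3]
    · refine Finset.sum_congr rfl fun α hα => ?_
      obtain ⟨w', hw'⟩ := evs_weil hα
      rw [Multiset.count_filter, Coh.wtf_eq hq hw']
      by_cases h4 : IsWeilNumber q (m + c) α
      · have h5 := weil_unique hq h4 hw'
        rw [if_pos h4, hcount, ind_pos (by omega), one_mul]
      · rw [if_neg h4, ind_neg, zero_mul, Nat.cast_zero]
        intro h5
        apply h4
        rwa [show (m : ℤ) + c = w' by omega]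
    · intro α _ hα
      rw [Multiset.mem_toFinset, ← Multiset.count_ne_zero, not_not] at hα
      rw [hα, Nat.cast_zero]
  rw [← h2] at h1
  exact_mod_cast h1

end

/-- The quotient of the products of the characteristic polynomials of `F` on the `H^j`, `j ≤ k`, with
`j` even and with `j` odd is the rational function `P / Q`. -/
def AltEq {Ω : Type w} [Field Ω] [CharZero Ω] (R : Coh.{v, w} Ω) (k : ℕ)
    (P Q : Polynomial ℚ) : Prop :=
  (∏ j ∈ (Finset.range (k + 1)).filter Even, charP R j) * Q.map (algebraMap ℚ Ω) =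
    (∏ j ∈ (Finset.range (k + 1)).filter (fun j => ¬ Even j), charP R j) *
      P.map (algebraMap ℚ Ω)

section

variable {I : Type*} {Ω : I → Type w} [∀ i, Field (Ω i)] [∀ i, CharZero (Ω i)]

/-- The product of the polynomials with rational coefficients. -/
lemma prod_indep (R : ∀ i, Coh.{v, w} (Ω i)) (s : Finset ℕ)
    (h : ∀ j ∈ s, ∃ C : Polynomial ℚ, ∀ i, charP (R i) j = C.map (algebraMap ℚ (Ω i))) :
    ∃ C : Polynomial ℚ, ∀ i, ∏ j ∈ s, charP (R i) j = C.map (algebraMap ℚ (Ω i)) := by
  classical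
  induction s using Finset.induction_on with
  | empty => exact ⟨1, fun i => by simp⟩
  | insert a s ha ih =>
    obtain ⟨C, hC⟩ := ih fun j hj => h j (Finset.mem_insert_of_mem hj)
    obtain ⟨D, hD⟩ := h a (Finset.mem_insert_self _ _)
    exact ⟨D * C, fun i => by rw [Finset.prod_insert ha, hC, hD, Polynomial.map_mul]⟩

/-- Division. -/
lemma div_indep (f : ∀ i, Polynomial (Ω i)) (A B : Polynomial ℚ) [Nonempty I] (hA : A ≠ 0)
    (h : ∀ i, f i * A.map (algebraMap ℚ (Ω i)) = B.map (algebraMap ℚ (Ω i))) :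
    ∃ C : Polynomial ℚ, ∀ i, f i = C.map (algebraMap ℚ (Ω i)) := by
  obtain ⟨i₀⟩ := ‹Nonempty I›
  have h1 : A ∣ B := by
    rw [← Polynomial.map_dvd_map' (algebraMap ℚ (Ω i₀)), ← h i₀]
    exact dvd_mul_left _ _
  obtain ⟨C, rfl⟩ := h1
  refine ⟨C, fun i => ?_⟩
  have h2 := h i
  rw [Polynomial.map_mul, mul_comm] at h2
  exact mul_left_cancel₀ ((Polynomial.map_ne_zero_iff (algebraMap ℚ (Ω i)).injective).2 hA) h2

/-- The remaining characteristic polynomial is rational and independent of `i`. -/
theorem indep_of_others [Nonempty I] {q : ℕ} (R : ∀ i, Coh.{v, w} (Ω i))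
    (hR : ∀ i, (R i).IsCoh q) {k m : ℕ} (hm : m ≤ k) {P Q : Polynomial ℚ} (hP : P ≠ 0)
    (hQ : Q ≠ 0) (h : ∀ i, AltEq (R i) k P Q)
    (hj : ∀ j, j ≤ k → j ≠ m →
      ∃ C : Polynomial ℚ, ∀ i, charP (R i) j = C.map (algebraMap ℚ (Ω i))) :
    ∃ C : Polynomial ℚ, ∀ i, charP (R i) m = C.map (algebraMap ℚ (Ω i)) := by
  classical
  obtain ⟨i₀⟩ := ‹Nonempty I›
  have : Nonempty I := ⟨i₀⟩
  have hne : ∀ s : Finset ℕ, ∏ j ∈ s, charP (R i₀) j ≠ 0 := fun s =>
    Finset.prod_ne_zero_iff.2 fun j _ => charP_ne_zero (hR i₀) j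
  by_cases hev : Even m
  · have hmem : m ∈ (Finset.range (k + 1)).filter Even :=
      Finset.mem_filter.2 ⟨Finset.mem_range.2 (by omega), hev⟩
    obtain ⟨A, hA⟩ := prod_indep R (((Finset.range (k + 1)).filter Even).erase m) (by
      intro j hj'
      have h1 := Finset.mem_erase.1 hj'
      have h2 := Finset.mem_filter.1 h1.2
      exact hj j (by have := Finset.mem_range.1 h2.1; omega) h1.1)
    obtain ⟨B, hB⟩ := prod_indep R ((Finset.range (k + 1)).filter (fun j => ¬ Even j)) (by
      intro j hj'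
      have h1 := Finset.mem_filter.1 hj'
      refine hj j (by have := Finset.mem_range.1 h1.1; omega) ?_
      rintro rfl
      exact h1.2 hev)
    have hA0 : A ≠ 0 := by
      intro h0
      have h1 := hne (((Finset.range (k + 1)).filter Even).erase m)
      rw [hA, h0, Polynomial.map_zero] at h1
      exact h1 rfl
    refine div_indep (fun i => charP (R i) m) (A * Q) (B * P) (mul_ne_zero hA0 hQ) fun i => ?_
    have h1 := h i
    unfold AltEq at h1
    rw [← Finset.mul_prod_erase _ _ hmem, hA, hB, mul_assoc] at h1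
    rw [Polynomial.map_mul, Polynomial.map_mul]
    exact h1
  · have hmem : m ∈ (Finset.range (k + 1)).filter (fun j => ¬ Even j) :=
      Finset.mem_filter.2 ⟨Finset.mem_range.2 (by omega), hev⟩
    obtain ⟨A, hA⟩ := prod_indep R (((Finset.range (k + 1)).filter (fun j => ¬ Even j)).erase m) (by
      intro j hj'
      have h1 := Finset.mem_erase.1 hj'
      have h2 := Finset.mem_filter.1 h1.2
      exact hj j (by have := Finset.mem_range.1 h2.1; omega) h1.1)
    obtain ⟨B, hB⟩ := prod_indep R ((Finset.range (k + 1)).filter Even) (by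
      intro j hj'
      have h1 := Finset.mem_filter.1 hj'
      refine hj j (by have := Finset.mem_range.1 h1.1; omega) ?_
      rintro rfl
      exact hev h1.2)
    have hA0 : A ≠ 0 := by
      intro h0
      have h1 := hne (((Finset.range (k + 1)).filter (fun j => ¬ Even j)).erase m)
      rw [hA, h0, Polynomial.map_zero] at h1
      exact h1 rfl
    refine div_indep (fun i => charP (R i) m) (A * P) (B * Q) (mul_ne_zero hA0 hP) fun i => ?_
    have h1 := h i
    unfold AltEq at h1
    rw [← Finset.mul_prod_erase _ _ hmem, hA, hB, mul_assoc] at h1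
    rw [Polynomial.map_mul, Polynomial.map_mul]
    exact h1.symm

end

end Pool.Agent.U865.WM
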