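import Pool.Agent.U865.WM.Slope2

/-!
# Independence of the prime number `ℓ`: ranks and weights
-/

set_option autoImplicit false

open Module

namespace Pool.Agent.U865.WM

universe u v w

open Pool.Agent.Y143 Pool.Agent.Y163.MW Pool.Agent.Y163.MX Pool.Agent.Y136.UB

/-- The number (with multiplicities) of the complex roots `z` of `C` with `|z| ≥ q ^ (n / 2)`. -/
noncomputable def rootsGE (C : Polynomial ℚ) (q : ℕ) (n : ℤ) : ℕ := by
  classical
  exact Multiset.card ((C.aroots ℂ).filter (fun z => (q : ℝ) ^ ((n : ℝ) / 2) ≤ ‖z‖))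

section

variable {Ω : Type w} [Field Ω] [CharZero Ω]

/-- The roots in `Ω` and in `ℂ`. -/
lemma card_ge [IsAlgClosed Ω] {q : ℕ} (hq : 1 < q) (C : Polynomial ℚ)
    (h : ∀ α ∈ C.aroots Ω, ∃ w' : ℤ, IsWeilNumber q w' α) (n : ℤ)
    [DecidablePred (fun α : Ω => n ≤ Coh.wtf q α)] :
    Multiset.card ((C.aroots Ω).filter (fun α => n ≤ Coh.wtf q α)) = rootsGE C q n := by
  classical
  let E := C.SplittingField
  have hs : (C.map (algebraMap ℚ E)).Splits := Polynomial.SplittingField.splits C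
  let φ : E →ₐ[ℚ] Ω := IsAlgClosed.lift
  let ψ : E →ₐ[ℚ] ℂ := IsAlgClosed.lift
  have h1 : C.aroots Ω = (C.aroots E).map φ := by
    have e := hs.roots_map (φ : E →+* Ω)
    rw [Polynomial.map_map] at e
    rw [Polynomial.aroots_def, Polynomial.aroots_def]
    have e2 : (φ : E →+* Ω).comp (algebraMap ℚ E) = algebraMap ℚ Ω := RingHom.ext fun x => φ.commutes x
    rw [e2] at e
    exact e
  have h2 : C.aroots ℂ = (C.aroots E).map ψ := by
    have e := hs.roots_map (ψ : E →+* ℂ)
    rw [Polynomial.map_map] at e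
    rw [Polynomial.aroots_def, Polynomial.aroots_def]
    have e2 : (ψ : E →+* ℂ).comp (algebraMap ℚ E) = algebraMap ℚ ℂ := RingHom.ext fun x => ψ.commutes x
    rw [e2] at e
    exact e
  unfold rootsGE
  rw [h1] at h ⊢
  rw [h2, Multiset.filter_map, Multiset.filter_map, Multiset.card_map, Multiset.card_map]
  congr 1
  refine Multiset.filter_congr fun e he => ?_
  obtain ⟨w', hw'⟩ := h (φ e) (Multiset.mem_map_of_mem _ he)
  have hmin : minpoly ℚ (φ e) = minpoly ℚ e := minpoly.algHom_eq φ φ.injective e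
  have hroot : Polynomial.aeval (ψ e) (minpoly ℚ (φ e)) = 0 := by
    rw [hmin, Polynomial.aeval_algHom_apply, minpoly.aeval, map_zero]
  have h3 := hw'.2 _ hroot
  simp only [Function.comp_apply]
  have hq' : (1 : ℝ) < q := by exact_mod_cast hq
  rw [Coh.wtf_eq hq hw', h3, Real.rpow_le_rpow_left_iff hq']
  constructor
  · intro hn
    have : (n : ℝ) ≤ w' := by exact_mod_cast hn
    linarith
  · intro hn
    have : (n : ℝ) ≤ w' := by linarith
    exact_mod_cast this

variable {R : Coh.{v, w} Ω} {q : ℕ}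

theorem numGE_roots [IsAlgClosed Ω] (hq : 1 < q) (hR : R.IsCoh q) {m : ℕ} {C : Polynomial ℚ}
    (hC : charP R m = C.map (algebraMap ℚ Ω)) (k : ℤ) :
    numGE R q m k = rootsGE C q (m + k) := by
  classical
  have hcount : ∀ α, Multiset.count α (C.aroots Ω) = mult R m α := by
    intro α
    rw [Polynomial.aroots_def, ← hC, Polynomial.count_roots, rootMultiplicity_charP hR]
  have hmem : ∀ α, α ∈ C.aroots Ω ↔ α ∈ evs hR m := by
    intro α
    rw [mem_evs, ← hcount, Multiset.count_ne_zero]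
  have hw : ∀ α ∈ C.aroots Ω, ∃ w' : ℤ, IsWeilNumber q w' α := fun α hα =>
    evs_weil ((hmem α).1 hα)
  rw [← card_ge hq C hw (m + k)]
  have h1 := numGE_eq hq hR m k
  have h2 : (Multiset.card ((C.aroots Ω).filter (fun α => m + k ≤ Coh.wtf q α)) : ℝ) =
      ∑ α ∈ evs hR m, ind ((k : ℝ) ≤ wpos q m α) * mult R m α := by
    rw [← Multiset.toFinset_sum_count_eq]
    push_cast
    have h3 : ((C.aroots Ω).filter (fun α => m + k ≤ Coh.wtf q α)).toFinset ⊆ evs hR m := by
      intro α hα
      rw [Multiset.mem_toFinset, Multiset.mem_filter] at hα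
      exact (hmem α).1 hα.1
    rw [Finset.sum_subset h3]
    · refine Finset.sum_congr rfl fun α hα => ?_
      rw [Multiset.count_filter]
      unfold wpos
      by_cases h4 : m + k ≤ Coh.wtf q α
      · have h5 : (k : ℝ) ≤ ((Coh.wtf q α - (m : ℤ) : ℤ) : ℝ) := by
          rw [Int.cast_le]
          omega
        rw [if_pos h4, hcount, ind_pos h5, one_mul]
      · have h5 : ¬ (k : ℝ) ≤ ((Coh.wtf q α - (m : ℤ) : ℤ) : ℝ) := by
          rw [Int.cast_le]
          omega
        rw [if_neg h4, ind_neg h5, zero_mul, Nat.cast_zero]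
    · intro α _ hα
      rw [Multiset.mem_toFinset, ← Multiset.count_ne_zero, not_not] at hα
      rw [hα, Nat.cast_zero]
  rw [← h2] at h1
  exact_mod_cast h1

/-- The excess of the weights is determined by the characteristic polynomial. -/
theorem weightExcess_roots [IsAlgClosed Ω] (hq : 1 < q) (hR : R.IsCoh q) {m : ℕ}
    {C : Polynomial ℚ} (hC : charP R m = C.map (algebraMap ℚ Ω)) (t : ℤ) :
    weightExcess R q m t = ∑ᶠ c : ℤ, (c - t).toNat * absNum C q (m + c) := by
  unfold weightExcess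
  exact finsum_congr fun c => by rw [finrank_exc_abs hq hR hC]

/-- Small slopes. -/
lemma slopeExcess_zero (hR : R.IsCoh q) {val : Ω → ℝ} {m : ℕ} {t : ℝ}
    (h : ∀ α, mult R m α ≠ 0 → 2 * val α ≤ m + t) : slopeExcess R val m t = 0 := by
  rw [slopeExcess_eq hR]
  refine Finset.sum_eq_zero fun α hα => ?_
  have h1 := h α (mem_evs.1 hα)
  unfold vpos
  rw [max_eq_left (by linarith), zero_mul]

/-- If the rank of `N ^ k` vanishes, `N ^ k = 0`. -/
lemma zero_of_rk (hR : R.IsCoh q) {m k : ℕ} (h : rk R m k = 0) :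
    ∀ x ∈ R.gr m, (R.N ^ k) x = 0 := by
  have := hR.finite
  intro x hx
  have h1 : (R.gr m).map (R.N ^ k) = ⊥ := Submodule.finrank_eq_zero.1 h
  have h2 : (R.N ^ k) x ∈ (R.gr m).map (R.N ^ k) := ⟨x, hx, rfl⟩
  rw [h1, Submodule.mem_bot] at h2
  exact h2

end

end Pool.Agent.U865.WM
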