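import Pool.Agent.U865.WM.Core

/-!
# The ranks of the powers of the monodromy operator: sums and single powers
-/

set_option autoImplicit false

open Module

namespace Pool.Agent.U865.WM

universe u v w

open Pool.Agent.Y143 Pool.Agent.Y163.MW Pool.Agent.Y163.MX Pool.Agent.Y136.UB

/-! ### Two functions -/

/-- The function `(1 + y) / 2`, truncated to `[0, 1]`. -/
noncomputable def cl (y : ℝ) : ℝ := max 0 (min 1 ((1 + y) / 2))

lemma cl_nonneg (y : ℝ) : 0 ≤ cl y := le_max_left _ _

lemma cl_le (y : ℝ) : cl y ≤ 1 := max_le zero_le_one (min_le_left _ _)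

lemma cl_neg (y : ℝ) : cl (-y) = 1 - cl y := by
  unfold cl
  rcases le_total ((1 + y) / 2) 1 with h | h <;> rcases le_total ((1 + y) / 2) 0 with h' | h'
  · rw [min_eq_right h, max_eq_left h', min_eq_left (by linarith), max_eq_right zero_le_one]
    ring
  · rw [min_eq_right h, max_eq_right h', min_eq_right (by linarith), max_eq_right (by linarith)]
    ring
  · rw [min_eq_left h, max_eq_right zero_le_one, min_eq_right (by linarith),
      max_eq_left (by linarith)]
    ring
  · rw [min_eq_left h, max_eq_right zero_le_one, min_eq_right (by linarith),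
      max_eq_left (by linarith)]
    ring

lemma cl_sum (M : ℕ) (u : ℝ) :
    ∑ i ∈ Finset.range M, cl (u - 1 - 2 * i) = max 0 (min (u / 2) M) := by
  induction M generalizing u with
  | zero => simp
  | succ M ih =>
    rw [Finset.sum_range_succ']
    have h1 : ∀ i : ℕ, cl (u - 1 - 2 * ((i + 1 : ℕ) : ℝ)) = cl ((u - 2) - 1 - 2 * i) := by
      intro i
      congr 1
      push_cast
      ring
    rw [Finset.sum_congr rfl (fun i _ => h1 i), ih (u - 2)]
    unfold cl
    have hM : (0 : ℝ) ≤ M := Nat.cast_nonneg M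
    push_cast
    rcases le_total (u / 2) 1 with h | h
    · have e1 : max 0 (min ((u - 2) / 2) (M : ℝ)) = 0 := by
        rw [min_eq_left (by linarith), max_eq_left (by linarith)]
      have e2 : min (u / 2) ((M : ℝ) + 1) = u / 2 := min_eq_left (by linarith)
      have e3 : min 1 ((1 + (u - 1 - 2 * 0)) / 2) = u / 2 := by
        rw [min_eq_right (by linarith)]
        ring
      rw [e1, e2, e3, zero_add]
    · have e3 : min 1 ((1 + (u - 1 - 2 * 0)) / 2) = 1 := min_eq_left (by linarith)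
      rw [e3, max_eq_right zero_le_one]
      rcases le_total ((u - 2) / 2) (M : ℝ) with h' | h'
      · rw [min_eq_left h', min_eq_left (by linarith), max_eq_right (by linarith),
          max_eq_right (by linarith)]
        ring
      · rw [min_eq_right h', min_eq_right (by linarith), max_eq_right (by linarith),
          max_eq_right (by linarith)]

lemma cl_sum_le (M : ℕ) (u : ℝ) :
    2 * ∑ i ∈ Finset.range M, cl (u - 1 - 2 * i) ≤ max 0 u := by
  rw [cl_sum]
  rcases le_total 0 u with h | h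
  · rw [max_eq_right h]
    have : max 0 (min (u / 2) (M : ℝ)) ≤ u / 2 := max_le (by linarith) (min_le_left _ _)
    linarith
  · rw [max_eq_left h]
    have : max 0 (min (u / 2) (M : ℝ)) ≤ 0 := max_le le_rfl ((min_le_left _ _).trans (by linarith))
    linarith

/-- One for positive, one half for zero, zero for negative numbers. -/
noncomputable def hf (y : ℝ) : ℝ := if 0 < y then 1 else if y = 0 then 1 / 2 else 0

lemma hf_nonneg (y : ℝ) : 0 ≤ hf y := by
  unfold hf
  split_ifs <;> norm_num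

lemma hf_le (y : ℝ) : hf y ≤ 1 := by
  unfold hf
  split_ifs <;> norm_num

lemma hf_neg (y : ℝ) : hf (-y) = 1 - hf y := by
  unfold hf
  rcases lt_trichotomy y 0 with h | h | h
  · rw [if_pos (by linarith), if_neg (by linarith), if_neg h.ne]
    ring
  · subst h
    norm_num
  · rw [if_neg (by linarith), if_neg (by linarith [h]), if_pos h]
    ring

/-- The indicator of a condition. -/
noncomputable def ind (p : Prop) : ℝ := by
  classical
  exact if p then 1 else 0

lemma ind_pos {p : Prop} (h : p) : ind p = 1 := by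
  unfold ind
  rw [if_pos h]

lemma ind_neg {p : Prop} (h : ¬ p) : ind p = 0 := by
  unfold ind
  rw [if_neg h]

lemma two_hf (y k : ℝ) : 2 * hf (y - k) = ind (k ≤ y) + ind (k < y) := by
  unfold hf
  rcases lt_trichotomy y k with h | h | h
  · rw [if_neg (by linarith), if_neg (by linarith [h]), ind_neg (by linarith), ind_neg (by linarith)]
    ring
  · subst h
    rw [ind_pos le_rfl, ind_neg (lt_irrefl _)]
    norm_num
  · rw [if_pos (by linarith), ind_pos h.le, ind_pos h]
    ring

/-! ### The inequalities -/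

variable {Ω : Type w} [Field Ω] [CharZero Ω] {R : Coh.{v, w} Ω} {q : ℕ}

/-- The sum of the ranks of `N ^ (t + 1)`, `N ^ (t + 3)`, ... -/
theorem sum_rk_le [IsAlgClosed Ω] (hq : 1 < q) (hR : R.IsCoh q) {m : ℕ} {x : Ω → ℝ}
    (hx : IsPos hR m x) (t M : ℕ) :
    ∑ i ∈ Finset.range M, (rk R m (t + 1 + 2 * i) : ℝ) ≤
      ∑ α ∈ evs hR m, max 0 (x α - t) * mult R m α := by
  have h1 : ∀ i ∈ Finset.range M, (rk R m (t + 1 + 2 * i) : ℝ) ≤
      2 * ∑ α ∈ evs hR m, cl ((x α - t) - 1 - 2 * i) * mult R m α := by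
    intro i _
    obtain ⟨a, b, c⟩ := rk_le hq hR hx cl_nonneg cl_le cl_neg (t + 1 + 2 * i)
    refine (a.trans (b.trans c)).trans (le_of_eq ?_)
    congr 1
    refine Finset.sum_congr rfl fun α _ => ?_
    congr 2
    push_cast
    ring
  refine (Finset.sum_le_sum h1).trans ?_
  rw [← Finset.mul_sum, Finset.sum_comm, Finset.mul_sum]
  refine Finset.sum_le_sum fun α _ => ?_
  rw [← Finset.sum_mul, ← mul_assoc]
  exact mul_le_mul_of_nonneg_right (cl_sum_le M (x α - t)) (Nat.cast_nonneg _)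

/-- The bound for one power. -/
theorem rk_le_count [IsAlgClosed Ω] (hq : 1 < q) (hR : R.IsCoh q) {m : ℕ} {x : Ω → ℝ}
    (hx : IsPos hR m x) (k : ℕ) :
    (rk R m k : ℝ) ≤ ∑ α ∈ evs hR m, (ind ((k : ℝ) ≤ x α) + ind ((k : ℝ) < x α)) * mult R m α := by
  obtain ⟨a, b, c⟩ := rk_le hq hR hx hf_nonneg hf_le hf_neg k
  refine (a.trans (b.trans c)).trans (le_of_eq ?_)
  rw [Finset.mul_sum]
  refine Finset.sum_congr rfl fun α _ => ?_
  rw [← two_hf, mul_assoc]

/-- The case of equality. -/
theorem full_of_eq [IsAlgClosed Ω] (hq : 1 < q) (hR : R.IsCoh q) {m : ℕ} {x : Ω → ℝ}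
    (hx : IsPos hR m x) {k : ℕ}
    (h : (rk R m k : ℝ) =
      ∑ α ∈ evs hR m, (ind ((k : ℝ) ≤ x α) + ind ((k : ℝ) < x α)) * mult R m α) :
    ∀ α ∈ evs hR m, (k : ℝ) ≤ x α → rkA R m k α = mult R m α := by
  obtain ⟨a, b, c⟩ := rk_le hq hR hx hf_nonneg hf_le hf_neg k
  have e : 2 * ∑ α ∈ evs hR m, hf (x α - k) * (mult R m α : ℝ) =
      ∑ α ∈ evs hR m, (ind ((k : ℝ) ≤ x α) + ind ((k : ℝ) < x α)) * mult R m α := by
    rw [Finset.mul_sum]
    refine Finset.sum_congr rfl fun α _ => ?_
    rw [← two_hf, mul_assoc]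
  have h2 : ∑ α ∈ evs hR m, (rkA R m k α : ℝ) = ∑ α ∈ evs hR m, (hf (x α - k) * mult R m α +
        (1 - hf (x α - k)) * mult R m (α / (q : Ω) ^ k)) := by
    apply le_antisymm b
    rw [e, ← h] at c
    exact c.trans a
  have h3 : ∀ α ∈ evs hR m, (rkA R m k α : ℝ) ≤ hf (x α - k) * mult R m α +
        (1 - hf (x α - k)) * mult R m (α / (q : Ω) ^ k) := by
    intro α _
    have a1 : (rkA R m k α : ℝ) ≤ mult R m α := by exact_mod_cast rkA_le_left hR m k α
    have a2 : (rkA R m k α : ℝ) ≤ mult R m (α / (q : Ω) ^ k) := by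
      exact_mod_cast rkA_le_right hq hR m k α
    have b1 := hf_nonneg (x α - k)
    have b2 := hf_le (x α - k)
    nlinarith [mul_le_mul_of_nonneg_left a1 b1, mul_le_mul_of_nonneg_left a2 (sub_nonneg.2 b2)]
  intro α hα hk
  have h4 := (Finset.sum_eq_sum_iff_of_le h3).1 h2 α hα
  have a1 : (rkA R m k α : ℝ) ≤ mult R m α := by exact_mod_cast rkA_le_left hR m k α
  have a2 : (rkA R m k α : ℝ) ≤ mult R m (α / (q : Ω) ^ k) := by
    exact_mod_cast rkA_le_right hq hR m k α
  have h5 : (rkA R m k α : ℝ) = mult R m α := by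
    unfold hf at h4
    rcases hk.lt_or_eq with h6 | h6
    · rw [if_pos (by linarith)] at h4
      linarith
    · rw [if_neg (by linarith), if_pos (by linarith)] at h4
      linarith
  exact_mod_cast h5

/-! ### The two position functions -/

/-- The excess of the weight. -/
noncomputable def wpos (q m : ℕ) (α : Ω) : ℝ := ((Coh.wtf q α - (m : ℤ) : ℤ) : ℝ)

lemma evs_weil {hR : R.IsCoh q} {m : ℕ} {α : Ω} (h : α ∈ evs hR m) :
    ∃ w : ℤ, IsWeilNumber q w α := by
  rw [mem_evs] at h
  by_contra hcon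
  exact h (mult_eq_zero hR hcon)

theorem isPos_wpos (hq : 1 < q) (hR : R.IsCoh q) (m : ℕ) : IsPos hR m (wpos (Ω := Ω) q m) := by
  have hq0 : (q : Ω) ≠ 0 := Nat.cast_ne_zero.2 (by omega)
  refine ⟨fun k α hα => ?_, fun α hα => ?_⟩
  · obtain ⟨w, hw⟩ := evs_weil hα
    have h1 := hw.twist (by omega : q ≠ 0) (-(k : ℤ))
    have e : (q : Ω) ^ (-(k : ℤ)) * α = α / (q : Ω) ^ k := by
      rw [zpow_neg, zpow_natCast, div_eq_inv_mul]
    rw [e] at h1
    unfold wpos
    rw [Coh.wtf_eq hq h1, Coh.wtf_eq hq hw]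
    push_cast
    ring
  · obtain ⟨w, hw⟩ := evs_weil hα
    have h1 := weil_mul (by omega : 0 < q) (weil_natPow (Ω := Ω) (by omega : 0 < q) m) hw.inv
    rw [← div_eq_mul_inv] at h1
    unfold wpos
    rw [Coh.wtf_eq hq h1, Coh.wtf_eq hq hw]
    push_cast
    ring

lemma val_pow {val : Ω → ℝ} (hv : IsVal q val) (hq : 1 < q) (n : ℕ) :
    val ((q : Ω) ^ n) = n := by
  have hq0 : (q : Ω) ≠ 0 := Nat.cast_ne_zero.2 (by omega)
  induction n with
  | zero =>
    have h3 := hv.mul 1 1 one_ne_zero one_ne_zero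
    rw [mul_one] at h3
    rw [pow_zero]
    push_cast
    linarith
  | succ n ih =>
    rw [pow_succ, hv.mul _ _ (pow_ne_zero _ hq0) hq0, ih, hv.norm]
    push_cast
    ring

lemma val_div {val : Ω → ℝ} (hv : IsVal q val) {α β : Ω} (hα : α ≠ 0) (hβ : β ≠ 0) :
    val (α / β) = val α - val β := by
  have h := hv.mul (α / β) β (div_ne_zero hα hβ) hβ
  rw [div_mul_cancel₀ _ hβ] at h
  linarith

/-- The excess of the slope. -/
noncomputable def vpos (val : Ω → ℝ) (m : ℕ) (α : Ω) : ℝ := 2 * val α - m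

theorem isPos_vpos (hq : 1 < q) (hR : R.IsCoh q) {val : Ω → ℝ} (hv : IsVal q val) (m : ℕ) :
    IsPos hR m (vpos val m) := by
  have hq0 : (q : Ω) ≠ 0 := Nat.cast_ne_zero.2 (by omega)
  refine ⟨fun k α hα => ?_, fun α hα => ?_⟩
  · have h0 := evs_ne_zero hq hα
    unfold vpos
    rw [val_div hv h0 (pow_ne_zero _ hq0), val_pow hv hq]
    ring
  · have h0 := evs_ne_zero hq hα
    unfold vpos
    rw [val_div hv (pow_ne_zero _ hq0) h0, val_pow hv hq]
    ring

end Pool.Agent.U865.WM
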