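import Pool.Agent.U865.WM.Ineq

/-!
# Isomorphisms between graded pieces, and numbers of eigenvalues
-/

set_option autoImplicit false

open Module

namespace Pool.Agent.U865.WM

universe u v w

open Pool.Agent.Y143 Pool.Agent.Y163.MW Pool.Agent.Y163.MX Pool.Agent.Y136.UB

variable {Ω : Type w} [Field Ω] [CharZero Ω] {R : Coh.{v, w} Ω} {q : ℕ}

lemma finsum_evs (hR : R.IsCoh q) (m : ℕ) (g : Ω → ℝ) :
    ∑ᶠ α : Ω, g α * (mult R m α : ℝ) = ∑ α ∈ evs hR m, g α * mult R m α := by
  refine finsum_eq_sum_of_support_subset _ ?_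
  intro α hα
  rw [Finset.mem_coe, mem_evs]
  intro h
  apply hα
  simp only [h]
  simp

/-- Sums over the weights. -/
lemma finsum_exc [IsAlgClosed Ω] (hq : 1 < q) (hR : R.IsCoh q) (m : ℕ) (φ : ℤ → ℝ) :
    ∑ᶠ c : ℤ, φ c * (finrank Ω (R.exc q m c) : ℝ) =
      ∑ α ∈ evs hR m, φ (Coh.wtf q α - m) * mult R m α := by
  classical
  obtain ⟨I, _, b, p, hb⟩ := exists_basis hR
  rw [← finsum_evs hR m (fun α => φ (Coh.wtf q α - m)),
    finsum_mult hR hb m (fun α => φ (Coh.wtf q α - m)),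
    ← finsum_fib (fun i : {i // (p i).1 = m} => Coh.wtf q (p i.1).2 - (m : ℤ)) φ]
  refine finsum_congr fun c => ?_
  rw [finrank_exc hq hR hb m c]
  congr 2
  refine Nat.card_congr ?_
  refine (Equiv.subtypeEquivRight fun i => ?_).trans
    (Equiv.subtypeSubtypeEquivSubtypeInter (fun i => (p i).1 = m)
      (fun i => Coh.wtf q (p i).2 - (m : ℤ) = c)).symm
  rw [Prod.ext_iff]
  constructor
  · rintro ⟨h1, h2⟩
    simp only at h1 h2
    exact ⟨h1, by rw [← h1]; exact h2⟩
  · rintro ⟨h1, h2⟩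
    exact ⟨h1, by simp only; rw [h1]; exact h2⟩

lemma finrank_exc_eq [IsAlgClosed Ω] (hq : 1 < q) (hR : R.IsCoh q) (m : ℕ) (c : ℤ) :
    (finrank Ω (R.exc q m c) : ℝ) =
      ∑ α ∈ evs hR m, ind (Coh.wtf q α - m = c) * mult R m α := by
  rw [← finsum_exc hq hR m (fun c' => ind (c' = c)), finsum_eq_single _ c]
  · rw [ind_pos rfl, one_mul]
  · intro c' hc'
    rw [ind_neg hc', zero_mul]

/-- Symmetry of the weights. -/
lemma finrank_exc_neg [IsAlgClosed Ω] (hq : 1 < q) (hR : R.IsCoh q) (m : ℕ) (c : ℤ) :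
    finrank Ω (R.exc q m c) = finrank Ω (R.exc q m (-c)) := by
  have h : (finrank Ω (R.exc q m c) : ℝ) = (finrank Ω (R.exc q m (-c)) : ℝ) := by
    rw [finrank_exc_eq hq hR, finrank_exc_eq hq hR,
      ← sum_dual hq hR m (fun α => ind (Coh.wtf q α - m = -c))]
    refine Finset.sum_congr rfl fun α hα => ?_
    have h1 := (isPos_wpos hq hR m).dual α hα
    unfold wpos at h1
    have h2 : Coh.wtf q ((q : Ω) ^ m / α) - (m : ℤ) = -(Coh.wtf q α - m) := by exact_mod_cast h1
    simp only [h2, neg_inj]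
  exact_mod_cast h

/-- The number of the eigenvalues of `F` on `H^m` (with multiplicities) of weight at least
`m + k`. -/
noncomputable def numGE (R : Coh.{v, w} Ω) (q m : ℕ) (k : ℤ) : ℕ := by
  classical
  exact ∑ᶠ c : ℤ, if k ≤ c then finrank Ω (R.exc q m c) else 0

/-- The sum of the `(w - m - t)⁺` over the eigenvalues of `F` on `H^m`, `w` denoting the weight. -/
noncomputable def weightExcess (R : Coh.{v, w} Ω) (q m : ℕ) (t : ℤ) : ℕ :=
  ∑ᶠ c : ℤ, (c - t).toNat * finrank Ω (R.exc q m c)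

lemma finite_exc [IsAlgClosed Ω] (hq : 1 < q) (hR : R.IsCoh q) (m : ℕ) :
    {c : ℤ | finrank Ω (R.exc q m c) ≠ 0}.Finite := by
  classical
  refine ((evs hR m).image (fun α => Coh.wtf q α - (m : ℤ))).finite_toSet.subset ?_
  intro c hc
  by_contra hcon
  apply hc
  have h := finrank_exc_eq hq hR m c
  rw [Finset.sum_eq_zero] at h
  · exact_mod_cast h
  · intro α hα
    rw [ind_neg, zero_mul]
    intro h1
    apply hcon
    rw [Finset.mem_coe]
    exact Finset.mem_image.2 ⟨α, hα, h1⟩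

lemma cast_finsum {f : ℤ → ℕ} {s : Set ℤ} (hs : s.Finite) (h : ∀ c, f c ≠ 0 → c ∈ s) :
    ((∑ᶠ c, f c : ℕ) : ℝ) = ∑ᶠ c, (f c : ℝ) := by
  classical
  rw [finsum_eq_sum_of_support_subset (s := hs.toFinset) f (fun c hc => by
      rw [Set.Finite.coe_toFinset]; exact h c hc),
    finsum_eq_sum_of_support_subset (s := hs.toFinset) (fun c => (f c : ℝ)) (fun c hc => by
      rw [Set.Finite.coe_toFinset]
      exact h c (fun h0 => hc (by simp [h0])))]
  push_cast
  rfl

lemma numGE_eq [IsAlgClosed Ω] (hq : 1 < q) (hR : R.IsCoh q) (m : ℕ) (k : ℤ) :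
    (numGE R q m k : ℝ) = ∑ α ∈ evs hR m, ind ((k : ℝ) ≤ wpos q m α) * mult R m α := by
  classical
  unfold numGE
  rw [cast_finsum (finite_exc hq hR m) (fun c hc h0 => by simp [h0] at hc)]
  have h1 : ∀ c : ℤ, ((if k ≤ c then finrank Ω (R.exc q m c) else 0 : ℕ) : ℝ) =
      ind (k ≤ c) * (finrank Ω (R.exc q m c) : ℝ) := by
    intro c
    split_ifs with h
    · rw [ind_pos h, one_mul]
    · rw [ind_neg h, zero_mul]
      simp
  rw [finsum_congr h1, finsum_exc hq hR m (fun c => ind (k ≤ c))]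
  refine Finset.sum_congr rfl fun α _ => ?_
  congr 2
  unfold wpos
  simp only [Int.cast_le]

lemma weightExcess_eq [IsAlgClosed Ω] (hq : 1 < q) (hR : R.IsCoh q) (m : ℕ) (t : ℤ) :
    (weightExcess R q m t : ℝ) = ∑ α ∈ evs hR m, max 0 (wpos q m α - t) * mult R m α := by
  unfold weightExcess
  rw [cast_finsum (finite_exc hq hR m) (fun c hc h0 => by simp [h0] at hc)]
  have h1 : ∀ c : ℤ, (((c - t).toNat * finrank Ω (R.exc q m c) : ℕ) : ℝ) =
      max 0 ((c : ℝ) - t) * (finrank Ω (R.exc q m c) : ℝ) := by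
    intro c
    push_cast
    congr 1
    rcases le_total 0 (c - t) with h | h
    · have h2 : (((c - t).toNat : ℤ) : ℝ) = ((c - t : ℤ) : ℝ) := by rw [Int.toNat_of_nonneg h]
      have h3 : (0 : ℝ) ≤ (c : ℝ) - t := by exact_mod_cast h
      rw [max_eq_right h3]
      push_cast at h2
      exact_mod_cast h2
    · have h3 : (c : ℝ) - t ≤ 0 := by exact_mod_cast h
      rw [max_eq_left h3, Int.toNat_of_nonpos h]
      simp
  rw [finsum_congr h1, finsum_exc hq hR m (fun c => max 0 ((c : ℝ) - t))]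
  rfl

/-! ### Injectivity -/

lemma rkA_inj (hR : R.IsCoh q) {m k : ℕ} {α : Ω} (h : rkA R m k α = mult R m α) :
    ∀ x ∈ R.pc (m, α), (R.N ^ k) x = 0 → x = 0 := by
  have := hR.finite
  let f : R.pc (m, α) →ₗ[Ω] R.V := (R.N ^ k).domRestrict (R.pc (m, α))
  have h1 : LinearMap.range f = (R.pc (m, α)).map (R.N ^ k) := LinearMap.range_domRestrict _ _
  have h2 := LinearMap.finrank_range_add_finrank_ker f
  have h3 : finrank Ω (LinearMap.range f) = finrank Ω (R.pc (m, α)) := by
    rw [h1]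
    exact h
  have h4 : finrank Ω (LinearMap.ker f) = 0 := by omega
  have h5 : LinearMap.ker f = ⊥ := Submodule.finrank_eq_zero.1 h4
  intro x hx h0
  have h6 : (⟨x, hx⟩ : R.pc (m, α)) ∈ LinearMap.ker f := h0
  rw [h5, Submodule.mem_bot] at h6
  exact congrArg Subtype.val h6

/-- Injectivity on the generalized eigenspaces implies injectivity on the parts of given weight. -/
lemma inj_exc (hq : 1 < q) (hR : R.IsCoh q) {m k : ℕ} {c : ℤ}
    (h : ∀ α, IsWeilNumber q (m + c) α → ∀ x ∈ R.pc (m, α), (R.N ^ k) x = 0 → x = 0) :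
    ∀ x ∈ R.exc q m c, (R.N ^ k) x = 0 → x = 0 := by
  classical
  have hq0 : (q : Ω) ≠ 0 := Nat.cast_ne_zero.2 (by omega)
  intro x hx h0
  unfold Coh.exc at hx
  obtain ⟨f, hf, hfx⟩ := (Submodule.mem_iSup_iff_exists_finsupp _ _).1 hx
  have hf' : ∀ α, f α ∈ R.pc (m, α) ∧ (¬ IsWeilNumber q (m + c) α → f α = 0) := by
    intro α
    have h1 := hf α
    by_cases hα : IsWeilNumber q (m + c) α
    · rw [iSup_pos hα] at h1
      exact ⟨h1, fun h2 => absurd hα h2⟩
    · rw [iSup_neg hα, Submodule.mem_bot] at h1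
      rw [h1]
      exact ⟨Submodule.zero_mem _, fun _ => rfl⟩
  have h2 : ∑ α ∈ f.support, (R.N ^ k) (f α) = 0 := by
    rw [← map_sum, ← h0, ← hfx]
    rfl
  have hind : iSupIndep (fun α : Ω => R.pc (m, α / (q : Ω) ^ k)) := by
    refine (Coh.indep_pc hR).comp (f := fun α : Ω => (m, α / (q : Ω) ^ k)) ?_
    intro a b hab
    exact (div_left_inj' (pow_ne_zero _ hq0)).1 (Prod.mk.inj hab).2
  rw [iSupIndep_iff_finsetSum_eq_zero_imp_eq_zero] at hind
  have h3 := hind f.support (fun α => (R.N ^ k) (f α))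
    (fun α _ => Npow_pc hq hR m k α _ (hf' α).1) h2
  have h4 : ∀ α ∈ f.support, f α = 0 := by
    intro α hα
    by_cases hw : IsWeilNumber q (m + c) α
    · exact h α hw _ (hf' α).1 (h3 α hα)
    · exact (hf' α).2 hw
  rw [← hfx]
  exact Finset.sum_eq_zero h4

/-- `N ^ k` induces an isomorphism from the part of weight `m + k` of `H^m` to the part of weight
`m - k`. -/
def IsoAt (R : Coh.{v, w} Ω) (q m k : ℕ) : Prop :=
  (∀ x ∈ R.exc q m k, (R.N ^ k) x ∈ R.exc q m (-(k : ℤ))) ∧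
    (∀ x ∈ R.exc q m k, (R.N ^ k) x = 0 → x = 0) ∧
    ∀ y ∈ R.exc q m (-(k : ℤ)), ∃ x ∈ R.exc q m k, (R.N ^ k) x = y

lemma Npow_exc (hq : 1 < q) (hR : R.IsCoh q) (m k : ℕ) (c : ℤ) :
    ∀ x ∈ R.exc q m c, (R.N ^ k) x ∈ R.exc q m (c - 2 * k) := by
  induction k generalizing c with
  | zero => intro x hx; simpa using hx
  | succ k ih =>
    intro x hx
    have e : R.N ^ (k + 1) = R.N * R.N ^ k := pow_succ' _ _
    rw [e, Module.End.mul_apply]
    have := Coh.N_exc hq hR m _ _ (ih c x hx)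
    rwa [show c - 2 * (k : ℤ) - 2 = c - 2 * ((k + 1 : ℕ) : ℤ) by push_cast; ring] at this

lemma isoAt_of_inj [IsAlgClosed Ω] (hq : 1 < q) (hR : R.IsCoh q) {m k : ℕ}
    (h : ∀ x ∈ R.exc q m k, (R.N ^ k) x = 0 → x = 0) : IsoAt R q m k := by
  have := hR.finite
  have hmap : ∀ x ∈ R.exc q m k, (R.N ^ k) x ∈ R.exc q m (-(k : ℤ)) := by
    intro x hx
    have := Npow_exc hq hR m k _ x hx
    rwa [show (k : ℤ) - 2 * k = -(k : ℤ) by ring] at this
  refine ⟨hmap, h, ?_⟩
  let f : R.exc q m k →ₗ[Ω] R.V := (R.N ^ k).domRestrict (R.exc q m k)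
  have h1 : LinearMap.range f = (R.exc q m k).map (R.N ^ k) := LinearMap.range_domRestrict _ _
  have hf : Function.Injective f := by
    rw [← LinearMap.ker_eq_bot, LinearMap.ker_eq_bot']
    intro x hx
    exact Subtype.ext (h x.1 x.2 hx)
  have h2 : finrank Ω (LinearMap.range f) = finrank Ω (R.exc q m k) :=
    LinearMap.finrank_range_of_inj hf
  have h3 : (R.exc q m k).map (R.N ^ k) ≤ R.exc q m (-(k : ℤ)) := by
    rintro _ ⟨x, hx, rfl⟩
    exact hmap x hx
  have h4 : (R.exc q m k).map (R.N ^ k) = R.exc q m (-(k : ℤ)) := by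
    apply Submodule.eq_of_le_of_finrank_eq h3
    rw [← h1, h2]
    exact finrank_exc_neg hq hR m k
  intro y hy
  rw [← h4] at hy
  obtain ⟨x, hx, hxy⟩ := hy
  exact ⟨x, hx, hxy⟩

/-- The bound for one power of `N`, with the numbers of eigenvalues of given weights. -/
theorem rk_le_num [IsAlgClosed Ω] (hq : 1 < q) (hR : R.IsCoh q) (m k : ℕ) :
    rk R m k ≤ numGE R q m k + numGE R q m (k + 1) := by
  have h := rk_le_count hq hR (isPos_wpos hq hR m) k
  have h1 : ((numGE R q m k + numGE R q m (k + 1) : ℕ) : ℝ) = ∑ α ∈ evs hR m,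
      (ind ((k : ℝ) ≤ wpos q m α) + ind ((k : ℝ) < wpos q m α)) * mult R m α := by
    push_cast
    rw [numGE_eq hq hR, numGE_eq hq hR, ← Finset.sum_add_distrib]
    refine Finset.sum_congr rfl fun α _ => ?_
    rw [add_mul]
    congr 2
    congr 1
    unfold wpos
    simp only [Int.cast_le, eq_iff_iff]
    rw [show ((k : ℝ)) = (((k : ℕ) : ℤ) : ℝ) by push_cast; rfl, Int.cast_lt]
    exact Int.add_one_le_iff
  rw [← h1] at h
  exact_mod_cast h

/-- Equality for one power of `N`. -/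
theorem iso_of_eq [IsAlgClosed Ω] (hq : 1 < q) (hR : R.IsCoh q) {m k : ℕ}
    (h : rk R m k = numGE R q m k + numGE R q m (k + 1)) :
    (∀ c : ℤ, (k : ℤ) ≤ c → ∀ x ∈ R.exc q m c, (R.N ^ k) x = 0 → x = 0) ∧ IsoAt R q m k := by
  have h1 : ((numGE R q m k + numGE R q m (k + 1) : ℕ) : ℝ) = ∑ α ∈ evs hR m,
      (ind ((k : ℝ) ≤ wpos q m α) + ind ((k : ℝ) < wpos q m α)) * mult R m α := by
    push_cast
    rw [numGE_eq hq hR, numGE_eq hq hR, ← Finset.sum_add_distrib]
    refine Finset.sum_congr rfl fun α _ => ?_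
    rw [add_mul]
    congr 2
    congr 1
    unfold wpos
    simp only [Int.cast_le, eq_iff_iff]
    rw [show ((k : ℝ)) = (((k : ℕ) : ℤ) : ℝ) by push_cast; rfl, Int.cast_lt]
    exact Int.add_one_le_iff
  have h2 : (rk R m k : ℝ) = ∑ α ∈ evs hR m,
      (ind ((k : ℝ) ≤ wpos q m α) + ind ((k : ℝ) < wpos q m α)) * mult R m α := by
    rw [← h1, h]
  have h3 := full_of_eq hq hR (isPos_wpos hq hR m) h2
  have h4 : ∀ c : ℤ, (k : ℤ) ≤ c → ∀ x ∈ R.exc q m c, (R.N ^ k) x = 0 → x = 0 := by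
    intro c hc
    refine inj_exc hq hR fun α hα => ?_
    by_cases he : α ∈ evs hR m
    · refine rkA_inj hR (h3 α he ?_)
      unfold wpos
      rw [Coh.wtf_eq hq hα, show (k : ℝ) = (((k : ℕ) : ℤ) : ℝ) by push_cast; rfl, Int.cast_le]
      omega
    · rw [mem_evs, not_not] at he
      have := hR.finite
      have h5 : R.pc (m, α) = ⊥ := Submodule.finrank_eq_zero.1 he
      intro x hx _
      rw [h5, Submodule.mem_bot] at hx
      exact hx
  exact ⟨h4, isoAt_of_inj hq hR (h4 k le_rfl)⟩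

/-- Summation over the powers. -/
theorem sum_num (hq : 1 < q) [IsAlgClosed Ω] (hR : R.IsCoh q) (m t M : ℕ) :
    ∑ i ∈ Finset.range M, (numGE R q m ((t + 1 + 2 * i : ℕ) : ℤ) +
      numGE R q m (((t + 1 + 2 * i : ℕ) : ℤ) + 1)) ≤ weightExcess R q m t := by
  have h : ((∑ i ∈ Finset.range M, (numGE R q m ((t + 1 + 2 * i : ℕ) : ℤ) +
      numGE R q m (((t + 1 + 2 * i : ℕ) : ℤ) + 1)) : ℕ) : ℝ) ≤ (weightExcess R q m t : ℝ) := by
    push_cast
    simp only [numGE_eq hq hR, weightExcess_eq hq hR]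
    simp only [← Finset.sum_add_distrib, ← add_mul]
    rw [Finset.sum_comm]
    refine Finset.sum_le_sum fun α _ => ?_
    rw [← Finset.sum_mul]
    refine mul_le_mul_of_nonneg_right ?_ (Nat.cast_nonneg _)
    unfold wpos
    generalize Coh.wtf q α - (m : ℤ) = c
    have key : ∀ (M : ℕ) (t : ℤ), ∑ i ∈ Finset.range M,
        (ind ((t : ℝ) + 1 + 2 * (i : ℝ) ≤ (c : ℝ)) + ind ((t : ℝ) + 1 + 2 * (i : ℝ) + 1 ≤ (c : ℝ))) ≤
        max 0 ((c : ℝ) - t) := by
      intro M
      induction M with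
      | zero => intro t; simp
      | succ M ih =>
        intro t
        rw [Finset.sum_range_succ']
        have h1 := ih (t + 2)
        have h2 : ∀ i : ℕ, ind ((t : ℝ) + 1 + 2 * ((i + 1 : ℕ) : ℝ) ≤ (c : ℝ)) +
            ind ((t : ℝ) + 1 + 2 * ((i + 1 : ℕ) : ℝ) + 1 ≤ (c : ℝ)) =
            ind ((((t + 2 : ℤ)) : ℝ) + 1 + 2 * (i : ℝ) ≤ (c : ℝ)) +
            ind ((((t + 2 : ℤ)) : ℝ) + 1 + 2 * (i : ℝ) + 1 ≤ (c : ℝ)) := by
          intro i
          congr 2 <;> (congr 1; push_cast; ring)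
        rw [Finset.sum_congr rfl (fun i _ => h2 i)]
        rcases lt_or_ge c (t + 1) with h3 | h3
        · have e1 : ind ((t : ℝ) + 1 + 2 * ((0 : ℕ) : ℝ) ≤ (c : ℝ)) = 0 := by
            apply ind_neg
            push_cast
            have : (c : ℝ) < t + 1 := by exact_mod_cast h3
            linarith
          have e2 : ind ((t : ℝ) + 1 + 2 * ((0 : ℕ) : ℝ) + 1 ≤ (c : ℝ)) = 0 := by
            apply ind_neg
            push_cast
            have : (c : ℝ) < t + 1 := by exact_mod_cast h3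
            linarith
          rw [e1, e2]
          have h4 : max 0 ((c : ℝ) - ((t + 2 : ℤ) : ℝ)) = 0 := by
            apply max_eq_left
            push_cast
            have : (c : ℝ) < t + 1 := by exact_mod_cast h3
            linarith
          rw [h4] at h1
          have := le_max_left 0 ((c : ℝ) - t)
          linarith
        · rcases eq_or_lt_of_le h3 with h5 | h5
          · have e1 : ind ((t : ℝ) + 1 + 2 * ((0 : ℕ) : ℝ) ≤ (c : ℝ)) = 1 := by
              apply ind_pos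
              push_cast
              have : (c : ℝ) = t + 1 := by exact_mod_cast h5.symm
              linarith
            have e2 : ind ((t : ℝ) + 1 + 2 * ((0 : ℕ) : ℝ) + 1 ≤ (c : ℝ)) = 0 := by
              apply ind_neg
              push_cast
              have : (c : ℝ) = t + 1 := by exact_mod_cast h5.symm
              linarith
            rw [e1, e2]
            have hc : (c : ℝ) = t + 1 := by exact_mod_cast h5.symm
            have h4 : max 0 ((c : ℝ) - ((t + 2 : ℤ) : ℝ)) = 0 := by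
              apply max_eq_left
              push_cast
              linarith
            rw [h4] at h1
            have := le_max_right 0 ((c : ℝ) - t)
            linarith
          · have hc : (t : ℝ) + 2 ≤ c := by
              have : t + 2 ≤ c := by omega
              exact_mod_cast this
            have e1 : ind ((t : ℝ) + 1 + 2 * ((0 : ℕ) : ℝ) ≤ (c : ℝ)) = 1 := by
              apply ind_pos
              push_cast
              linarith
            have e2 : ind ((t : ℝ) + 1 + 2 * ((0 : ℕ) : ℝ) + 1 ≤ (c : ℝ)) = 1 := by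
              apply ind_pos
              push_cast
              linarith
            rw [e1, e2]
            have h4 : max 0 ((c : ℝ) - ((t + 2 : ℤ) : ℝ)) = (c : ℝ) - t - 2 := by
              rw [max_eq_right]
              · push_cast
                ring
              · push_cast
                linarith
            rw [h4] at h1
            have := le_max_right 0 ((c : ℝ) - t)
            linarith
    have h6 := key M t
    push_cast at h6 ⊢
    exact h6
  exact_mod_cast h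

/-- The sum of the ranks of `N ^ (t + 1)`, `N ^ (t + 3)`, ..., `N ^ (t + 2 M - 1)` on `H^m`. -/
noncomputable def rankSumFrom (R : Coh.{v, w} Ω) (m t M : ℕ) : ℕ :=
  ∑ i ∈ Finset.range M, rk R m (t + 1 + 2 * i)

theorem rankSum_le [IsAlgClosed Ω] (hq : 1 < q) (hR : R.IsCoh q) (m t M : ℕ) :
    rankSumFrom R m t M ≤ weightExcess R q m t :=
  (Finset.sum_le_sum fun i _ => rk_le_num hq hR m (t + 1 + 2 * i)).trans (sum_num hq hR m t M)

/-- The powers `N ^ k`, `k = t + 1, t + 3, ...`, if the sum of the ranks is maximal. -/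
theorem iso_of_sum_eq [IsAlgClosed Ω] (hq : 1 < q) (hR : R.IsCoh q) {m t M : ℕ}
    (h : weightExcess R q m t ≤ rankSumFrom R m t M) (i : ℕ) :
    (∀ c : ℤ, ((t + 1 + 2 * i : ℕ) : ℤ) ≤ c → ∀ x ∈ R.exc q m c,
      (R.N ^ (t + 1 + 2 * i)) x = 0 → x = 0) ∧ IsoAt R q m (t + 1 + 2 * i) := by
  apply iso_of_eq hq hR
  -- we may enlarge `M`
  set M' := max M (i + 1) with hM'
  have h1 : rankSumFrom R m t M ≤ rankSumFrom R m t M' :=
    Finset.sum_le_sum_of_subset (Finset.range_mono (le_max_left _ _))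
  have h2 := sum_num hq hR m t M'
  have h3 : ∀ j ∈ Finset.range M', rk R m (t + 1 + 2 * j) ≤
      numGE R q m ((t + 1 + 2 * j : ℕ) : ℤ) + numGE R q m (((t + 1 + 2 * j : ℕ) : ℤ) + 1) :=
    fun j _ => rk_le_num hq hR m (t + 1 + 2 * j)
  have h4 : rankSumFrom R m t M' = ∑ j ∈ Finset.range M', (numGE R q m ((t + 1 + 2 * j : ℕ) : ℤ) +
      numGE R q m (((t + 1 + 2 * j : ℕ) : ℤ) + 1)) := by
    exact le_antisymm (Finset.sum_le_sum h3) (h2.trans (h.trans h1))
  exact (Finset.sum_eq_sum_iff_of_le h3).1 h4 i (Finset.mem_range.2 (by omega))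

end Pool.Agent.U865.WM
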