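import Pool.Agent.U865.WM.Iso

/-!
# The monodromy-weight conjecture and the ranks of the powers of `N`
-/

set_option autoImplicit false

open Module

namespace Pool.Agent.U865.WM

universe u v w

open Pool.Agent.Y143 Pool.Agent.Y163.MW Pool.Agent.Y163.MX Pool.Agent.Y136.UB

variable {Ω : Type w} [Field Ω] [CharZero Ω] {R : Coh.{v, w} Ω} {q : ℕ}

/-- The sum over the exponents. -/
lemma sum_ind_nat (n K : ℕ) (h : n < K) :
    ∑ k ∈ Finset.range K, 2 * (k : ℝ) * (ind ((k : ℤ) ≤ (n : ℤ)) + ind ((k : ℤ) + 1 ≤ (n : ℤ))) =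
      2 * (n : ℝ) ^ 2 := by
  have h1 : ∑ k ∈ Finset.range K, 2 * (k : ℝ) *
      (ind ((k : ℤ) ≤ (n : ℤ)) + ind ((k : ℤ) + 1 ≤ (n : ℤ))) =
      ∑ k ∈ Finset.range (n + 1), 2 * (k : ℝ) *
      (ind ((k : ℤ) ≤ (n : ℤ)) + ind ((k : ℤ) + 1 ≤ (n : ℤ))) := by
    symm
    refine Finset.sum_subset (Finset.range_mono (by omega)) fun k _ hk => ?_
    rw [Finset.mem_range] at hk
    rw [ind_neg (by omega), ind_neg (by omega)]
    ring
  rw [h1, Finset.sum_range_succ, ind_pos le_rfl, ind_neg (by omega)]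
  have h2 : ∑ k ∈ Finset.range n, 2 * (k : ℝ) *
      (ind ((k : ℤ) ≤ (n : ℤ)) + ind ((k : ℤ) + 1 ≤ (n : ℤ))) =
      ∑ k ∈ Finset.range n, 4 * (k : ℝ) := by
    refine Finset.sum_congr rfl fun k hk => ?_
    rw [Finset.mem_range] at hk
    rw [ind_pos (by omega), ind_pos (by omega)]
    ring
  rw [h2]
  have h3 : ∀ n : ℕ, ∑ k ∈ Finset.range n, 4 * (k : ℝ) = 2 * (n : ℝ) ^ 2 - 2 * n := by
    intro n
    induction n with
    | zero => simp
    | succ n ih =>
      rw [Finset.sum_range_succ, ih]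
      push_cast
      ring
  rw [h3]
  ring

lemma sum_ind_int (c : ℤ) (K : ℕ) (h : c < K) :
    ∑ k ∈ Finset.range K, 2 * (k : ℝ) * (ind ((k : ℤ) ≤ c) + ind ((k : ℤ) + 1 ≤ c)) =
      2 * (max 0 (c : ℝ)) ^ 2 := by
  rcases le_total 0 c with h0 | h0
  · obtain ⟨n, rfl⟩ := Int.eq_ofNat_of_zero_le h0
    rw [max_eq_right (by exact_mod_cast h0)]
    have := sum_ind_nat n K (by exact_mod_cast h)
    simpa using this
  · rw [max_eq_left (by exact_mod_cast h0), Finset.sum_eq_zero]
    · ring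
    · intro k _
      rcases Nat.eq_zero_or_pos k with hk | hk
      · rw [hk]
        simp
      · rw [ind_neg (by omega), ind_neg (by omega)]
        ring

lemma cast_finsumZ {f : ℤ → ℤ} {s : Set ℤ} (hs : s.Finite) (h : ∀ c, f c ≠ 0 → c ∈ s) :
    ((∑ᶠ c, f c : ℤ) : ℝ) = ∑ᶠ c, (f c : ℝ) := by
  classical
  rw [finsum_eq_sum_of_support_subset (s := hs.toFinset) f (fun c hc => by
      rw [Set.Finite.coe_toFinset]; exact h c hc),
    finsum_eq_sum_of_support_subset (s := hs.toFinset) (fun c => (f c : ℝ)) (fun c hc => by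
      rw [Set.Finite.coe_toFinset]
      exact h c (fun h0 => hc (by simp [h0])))]
  push_cast
  rfl

lemma weightMoment_evs [IsAlgClosed Ω] (hq : 1 < q) (hR : R.IsCoh q) (m : ℕ) :
    (R.weightMoment q m : ℝ) = ∑ α ∈ evs hR m, (wpos q m α) ^ 2 * mult R m α := by
  unfold Coh.weightMoment squareSum
  rw [cast_finsumZ (finite_exc hq hR m) (fun c hc h0 => by simp [h0] at hc)]
  have h1 : ∀ c : ℤ, ((c ^ 2 * (finrank Ω (R.exc q m c) : ℤ) : ℤ) : ℝ) =
      ((c : ℝ) ^ 2) * (finrank Ω (R.exc q m c) : ℝ) := by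
    intro c
    push_cast
    rfl
  rw [finsum_congr h1, finsum_exc hq hR m (fun c => (c : ℝ) ^ 2)]
  rfl

lemma exists_bound (hR : R.IsCoh q) (m : ℕ) : ∃ K : ℕ, ∀ α ∈ evs hR m,
    Coh.wtf q α - (m : ℤ) < K := by
  refine ⟨∑ α ∈ evs hR m, ((Coh.wtf q α - (m : ℤ)).toNat + 1), fun α hα => ?_⟩
  have h1 : (Coh.wtf q α - (m : ℤ)).toNat + 1 ≤
      ∑ α ∈ evs hR m, ((Coh.wtf q α - (m : ℤ)).toNat + 1) :=
    Finset.single_le_sum (f := fun α => (Coh.wtf q α - (m : ℤ)).toNat + 1)
      (fun _ _ => Nat.zero_le _) hα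
  have h2 := Int.self_le_toNat (Coh.wtf q α - (m : ℤ))
  have h3 : (((Coh.wtf q α - (m : ℤ)).toNat + 1 : ℕ) : ℤ) ≤
      ((∑ α ∈ evs hR m, ((Coh.wtf q α - (m : ℤ)).toNat + 1) : ℕ) : ℤ) := by exact_mod_cast h1
  omega

lemma numGE_zero [IsAlgClosed Ω] (hq : 1 < q) (hR : R.IsCoh q) {m : ℕ} {K : ℕ}
    (hK : ∀ α ∈ evs hR m, Coh.wtf q α - (m : ℤ) < K) {k : ℤ} (hk : (K : ℤ) ≤ k) :
    numGE R q m k = 0 := by
  have h := numGE_eq hq hR m k
  rw [Finset.sum_eq_zero] at h
  · exact_mod_cast h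
  · intro α hα
    rw [ind_neg, zero_mul]
    intro h1
    unfold wpos at h1
    have h2 : k ≤ Coh.wtf q α - m := by exact_mod_cast h1
    have := hK α hα
    omega

lemma rk_zero [IsAlgClosed Ω] (hq : 1 < q) (hR : R.IsCoh q) {m : ℕ} {K : ℕ}
    (hK : ∀ α ∈ evs hR m, Coh.wtf q α - (m : ℤ) < K) {k : ℕ} (hk : K ≤ k) : rk R m k = 0 := by
  have h := rk_le_num hq hR m k
  rw [numGE_zero hq hR hK (k := (k : ℤ)) (by omega),
    numGE_zero hq hR hK (k := (k : ℤ) + 1) (by omega)] at h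
  omega

/-- **Purity and ranks.** `H^m` is mw pure if and only if for all `k` the rank of `N ^ k` on `H^m` is
the number of the eigenvalues of weight `≥ m + k` plus the number of those of weight `> m + k`. -/
theorem mw_iff_rk [IsAlgClosed Ω] (hq : 1 < q) (hR : R.IsCoh q) (m : ℕ) :
    R.MWPure q m ↔ ∀ k : ℕ, 1 ≤ k → rk R m k = numGE R q m k + numGE R q m (k + 1) := by
  constructor
  · intro hmw
    obtain ⟨K, hK⟩ := exists_bound hR m
    have h1 := (Coh.moment_deg hq hR m).2.2 hmw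
    have h2 : (R.rankMoment m : ℝ) = ∑ k ∈ Finset.range K, 2 * (k : ℝ) * (rk R m k : ℝ) := by
      unfold Coh.rankMoment rankSum
      rw [finsum_eq_sum_of_support_subset (s := Finset.range K)]
      · push_cast
        rfl
      · intro k hk
        rw [Function.mem_support] at hk
        by_contra hcon
        apply hk
        rw [Finset.mem_coe, Finset.mem_range, not_lt] at hcon
        have h3 : finrank Ω ((R.gr m).map (R.N ^ k)) = 0 := rk_zero hq hR hK hcon
        rw [h3]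
        simp
    have h3 : (R.weightMoment q m : ℝ) = ∑ k ∈ Finset.range K, 2 * (k : ℝ) *
        ((numGE R q m k : ℝ) + numGE R q m (k + 1)) := by
      rw [weightMoment_evs hq hR]
      have e1 : ∑ k ∈ Finset.range K, 2 * (k : ℝ) * ((numGE R q m k : ℝ) + numGE R q m (k + 1)) =
          ∑ α ∈ evs hR m, (2 * (max 0 (wpos q m α)) ^ 2) * mult R m α := by
        have e2 : ∀ k ∈ Finset.range K, 2 * (k : ℝ) *
            ((numGE R q m k : ℝ) + numGE R q m (k + 1)) = ∑ α ∈ evs hR m,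
            (2 * (k : ℝ) * (ind ((k : ℤ) ≤ Coh.wtf q α - m) +
              ind ((k : ℤ) + 1 ≤ Coh.wtf q α - m))) * mult R m α := by
          intro k _
          rw [numGE_eq hq hR, numGE_eq hq hR, ← Finset.sum_add_distrib, Finset.mul_sum]
          refine Finset.sum_congr rfl fun α _ => ?_
          unfold wpos
          simp only [Int.cast_le]
          ring
        rw [Finset.sum_congr rfl e2, Finset.sum_comm]
        refine Finset.sum_congr rfl fun α hα => ?_
        rw [← Finset.sum_mul, sum_ind_int _ K (hK α hα)]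
        rfl
      rw [e1]
      have e3 : ∑ α ∈ evs hR m, (max 0 (wpos q m α)) ^ 2 * (mult R m α : ℝ) =
          ∑ α ∈ evs hR m, (max 0 (-wpos q m α)) ^ 2 * (mult R m α : ℝ) := by
        rw [← sum_dual hq hR m (fun α => (max 0 (wpos q m α)) ^ 2)]
        refine Finset.sum_congr rfl fun α hα => ?_
        rw [(isPos_wpos hq hR m).dual α hα]
      have e4 : ∑ α ∈ evs hR m, (2 * (max 0 (wpos q m α)) ^ 2) * (mult R m α : ℝ) =
          ∑ α ∈ evs hR m, (max 0 (wpos q m α)) ^ 2 * (mult R m α : ℝ) +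
          ∑ α ∈ evs hR m, (max 0 (-wpos q m α)) ^ 2 * (mult R m α : ℝ) := by
        rw [← e3, ← Finset.sum_add_distrib]
        refine Finset.sum_congr rfl fun α _ => ?_
        ring
      rw [e4, ← Finset.sum_add_distrib]
      refine Finset.sum_congr rfl fun α _ => ?_
      rw [← add_mul]
      congr 1
      rcases le_total 0 (wpos q m α) with h | h
      · rw [max_eq_right h, max_eq_left (by linarith)]
        ring
      · rw [max_eq_left h, max_eq_right (by linarith)]
        ring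
    have h4 : ∑ k ∈ Finset.range K, 2 * (k : ℝ) * (rk R m k : ℝ) =
        ∑ k ∈ Finset.range K, 2 * (k : ℝ) * ((numGE R q m k : ℝ) + numGE R q m (k + 1)) := by
      rw [← h2, ← h3, h1]
    have h5 : ∀ k ∈ Finset.range K, 2 * (k : ℝ) * (rk R m k : ℝ) ≤
        2 * (k : ℝ) * ((numGE R q m k : ℝ) + numGE R q m (k + 1)) := by
      intro k _
      refine mul_le_mul_of_nonneg_left ?_ (by positivity)
      have := rk_le_num hq hR m k
      exact_mod_cast this
    intro k hk
    rcases lt_or_ge k K with h6 | h6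
    · have h7 := (Finset.sum_eq_sum_iff_of_le h5).1 h4 k (Finset.mem_range.2 h6)
      have h8 : (2 * (k : ℝ)) ≠ 0 := by
        have : (k : ℝ) ≠ 0 := Nat.cast_ne_zero.2 (by omega)
        positivity
      have h9 := mul_left_cancel₀ h8 h7
      exact_mod_cast h9
    · rw [rk_zero hq hR hK h6, numGE_zero hq hR hK (k := (k : ℤ)) (by omega),
        numGE_zero hq hR hK (k := (k : ℤ) + 1) (by omega)]
  · intro h
    rw [Coh.mwPure_iff hq hR m]
    intro a
    rcases Nat.eq_zero_or_pos a with ha | ha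
    · subst ha
      refine ⟨fun x _ hx => by simpa using hx, fun y hy => ⟨y, ?_, by simp⟩⟩
      simpa using hy
    · exact (iso_of_eq hq hR (h a ha)).2.2

/-- If the sums of the ranks are maximal for `t = 0` and `t = 1`, then `H^m` is mw pure. -/
theorem mw_of_sums [IsAlgClosed Ω] (hq : 1 < q) (hR : R.IsCoh q) {m M M' : ℕ}
    (h : weightExcess R q m 0 ≤ rankSumFrom R m 0 M)
    (h' : weightExcess R q m 1 ≤ rankSumFrom R m 1 M') : R.MWPure q m := by
  rw [Coh.mwPure_iff hq hR m]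
  intro a
  rcases Nat.eq_zero_or_pos a with ha | ha
  · subst ha
    refine ⟨fun x _ hx => by simpa using hx, fun y hy => ⟨y, ?_, by simp⟩⟩
    simpa using hy
  · rcases Nat.even_or_odd' a with ⟨b, hb | hb⟩
    · obtain ⟨j, rfl⟩ : ∃ j, b = j + 1 := ⟨b - 1, by omega⟩
      have := (iso_of_sum_eq hq hR (t := 1) (M := M') (by exact_mod_cast h') j).2.2
      rwa [show 1 + 1 + 2 * j = a by omega] at this
    · have := (iso_of_sum_eq hq hR (t := 0) (M := M) (by exact_mod_cast h) b).2.2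
      rwa [show 0 + 1 + 2 * b = a by omega] at this

end Pool.Agent.U865.WM
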