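import Pool.Agent.U865.WM.Indep

/-!
# The slopes and the monodromy filtration
-/

set_option autoImplicit false

open Module

namespace Pool.Agent.U865.WM

universe u v w

open Pool.Agent.Y143 Pool.Agent.Y163.MW Pool.Agent.Y163.MX Pool.Agent.Y136.UB

variable {Ω : Type w} [Field Ω] [CharZero Ω] {R : Coh.{v, w} Ω} {q : ℕ}

/-- The case of equality for a position function. -/
theorem full_of_sum_eq [IsAlgClosed Ω] (hq : 1 < q) (hR : R.IsCoh q) {m : ℕ} {x : Ω → ℝ}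
    (hx : IsPos hR m x) {t M : ℕ}
    (h : ∑ α ∈ evs hR m, max 0 (x α - t) * mult R m α ≤ (rankSumFrom R m t M : ℝ)) (i : ℕ) :
    ∀ α ∈ evs hR m, (((t + 1 + 2 * i : ℕ) : ℝ) - 1 < x α → rkA R m (t + 1 + 2 * i) α = mult R m α) ∧
      (x α < ((t + 1 + 2 * i : ℕ) : ℝ) + 1 →
        rkA R m (t + 1 + 2 * i) α = mult R m (α / (q : Ω) ^ (t + 1 + 2 * i))) := by
  set M' := max M (i + 1) with hM'
  -- the upper bounds
  let U : ℕ → ℝ := fun j => 2 * ∑ α ∈ evs hR m, cl (x α - ((t + 1 + 2 * j : ℕ) : ℝ)) * mult R m α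
  let S : ℕ → ℝ := fun j => ∑ α ∈ evs hR m, (rkA R m (t + 1 + 2 * j) α : ℝ)
  let T : ℕ → ℝ := fun j => ∑ α ∈ evs hR m, (cl (x α - ((t + 1 + 2 * j : ℕ) : ℝ)) * mult R m α +
        (1 - cl (x α - ((t + 1 + 2 * j : ℕ) : ℝ))) * mult R m (α / (q : Ω) ^ (t + 1 + 2 * j)))
  have hU : ∑ j ∈ Finset.range M', U j ≤ ∑ α ∈ evs hR m, max 0 (x α - t) * mult R m α := by
    simp only [U]
    rw [← Finset.mul_sum, Finset.sum_comm, Finset.mul_sum]
    refine Finset.sum_le_sum fun α _ => ?_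
    rw [← Finset.sum_mul, ← mul_assoc]
    refine mul_le_mul_of_nonneg_right ?_ (Nat.cast_nonneg _)
    refine le_trans (le_of_eq ?_) (cl_sum_le M' (x α - t))
    congr 1
    refine Finset.sum_congr rfl fun j _ => ?_
    congr 1
    push_cast
    ring
  have h1 : ∀ j, (rk R m (t + 1 + 2 * j) : ℝ) ≤ S j ∧ S j ≤ T j ∧ T j ≤ U j := fun j =>
    rk_le hq hR hx cl_nonneg cl_le cl_neg (t + 1 + 2 * j)
  have h2 : (rankSumFrom R m t M : ℝ) ≤ ∑ j ∈ Finset.range M', (rk R m (t + 1 + 2 * j) : ℝ) := by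
    unfold rankSumFrom
    push_cast
    refine Finset.sum_le_sum_of_subset_of_nonneg (Finset.range_mono (le_max_left _ _)) ?_
    intro j _ _
    exact Nat.cast_nonneg _
  have h3 : ∑ j ∈ Finset.range M', (rk R m (t + 1 + 2 * j) : ℝ) = ∑ j ∈ Finset.range M', U j :=
    le_antisymm (Finset.sum_le_sum fun j _ => (h1 j).1.trans ((h1 j).2.1.trans (h1 j).2.2))
      (hU.trans (h.trans h2))
  have h4 := (Finset.sum_eq_sum_iff_of_le (fun j _ =>
    (h1 j).1.trans ((h1 j).2.1.trans (h1 j).2.2))).1 h3 i (Finset.mem_range.2 (by omega))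
  have h5 : S i = T i := le_antisymm (h1 i).2.1 ((h1 i).2.2.trans (h4.symm.le.trans (h1 i).1))
  set k := t + 1 + 2 * i with hk
  have hle : ∀ α ∈ evs hR m, (rkA R m k α : ℝ) ≤ cl (x α - k) * mult R m α +
        (1 - cl (x α - k)) * mult R m (α / (q : Ω) ^ k) := by
    intro α _
    have a1 : (rkA R m k α : ℝ) ≤ mult R m α := by exact_mod_cast rkA_le_left hR m k α
    have a2 : (rkA R m k α : ℝ) ≤ mult R m (α / (q : Ω) ^ k) := by
      exact_mod_cast rkA_le_right hq hR m k α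
    have b1 := cl_nonneg (x α - k)
    have b2 := cl_le (x α - k)
    nlinarith [mul_le_mul_of_nonneg_left a1 b1, mul_le_mul_of_nonneg_left a2 (sub_nonneg.2 b2)]
  intro α hα
  have h6 := (Finset.sum_eq_sum_iff_of_le hle).1 h5 α hα
  have a1 : (rkA R m k α : ℝ) ≤ mult R m α := by exact_mod_cast rkA_le_left hR m k α
  have a2 : (rkA R m k α : ℝ) ≤ mult R m (α / (q : Ω) ^ k) := by
    exact_mod_cast rkA_le_right hq hR m k α
  have b1 := cl_nonneg (x α - k)
  have b2 := cl_le (x α - k)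
  have c1 := mul_nonneg b1 (sub_nonneg.2 a1)
  have c2 := mul_nonneg (sub_nonneg.2 b2) (sub_nonneg.2 a2)
  constructor
  · intro h7
    have h8 : 0 < cl (x α - k) := by
      unfold cl
      refine lt_max_of_lt_right (lt_min zero_lt_one ?_)
      linarith
    have h9 : cl (x α - k) * ((mult R m α : ℝ) - rkA R m k α) = 0 := by nlinarith
    have h10 := (mul_eq_zero.1 h9).resolve_left h8.ne'
    have h11 : (rkA R m k α : ℝ) = mult R m α := by linarith
    exact_mod_cast h11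
  · intro h7
    have h8 : cl (x α - k) < 1 := by
      unfold cl
      refine max_lt zero_lt_one (min_lt_of_right_lt ?_)
      linarith
    have h9 : (1 - cl (x α - k)) * ((mult R m (α / (q : Ω) ^ k) : ℝ) - rkA R m k α) = 0 := by
      nlinarith
    have h10 := (mul_eq_zero.1 h9).resolve_left (by linarith)
    have h11 : (rkA R m k α : ℝ) = mult R m (α / (q : Ω) ^ k) := by linarith
    exact_mod_cast h11

/-- `N ^ k` is injective on the generalized eigenspaces of position `> k - 1`, and the generalized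
eigenspaces of position `< 1 - k` are in the image of `N ^ k`. -/
structure Full (hR : R.IsCoh q) (m k : ℕ) (x : Ω → ℝ) : Prop where
  inj : ∀ α ∈ evs hR m, (k : ℝ) - 1 < x α → ∀ v ∈ R.pc (m, α), (R.N ^ k) v = 0 → v = 0
  surj : ∀ β ∈ evs hR m, x β < 1 - (k : ℝ) → β * (q : Ω) ^ k ∈ evs hR m ∧
    ∀ u ∈ R.pc (m, β), ∃ v ∈ R.pc (m, β * (q : Ω) ^ k), (R.N ^ k) v = u
  ev : ∀ α ∈ evs hR m, (k : ℝ) - 1 < x α → α / (q : Ω) ^ k ∈ evs hR m

theorem full_of_sum [IsAlgClosed Ω] (hq : 1 < q) (hR : R.IsCoh q) {m : ℕ} {x : Ω → ℝ}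
    (hx : IsPos hR m x) {t M : ℕ}
    (h : ∑ α ∈ evs hR m, max 0 (x α - t) * mult R m α ≤ (rankSumFrom R m t M : ℝ)) (i : ℕ) :
    Full hR m (t + 1 + 2 * i) x := by
  have := hR.finite
  have hq0 : (q : Ω) ≠ 0 := Nat.cast_ne_zero.2 (by omega)
  have h1 := full_of_sum_eq hq hR hx h i
  set k := t + 1 + 2 * i with hk
  have hqk : (q : Ω) ^ k ≠ 0 := pow_ne_zero _ hq0
  have hle : ∀ α ∈ evs hR m, (k : ℝ) - 1 < x α → mult R m α ≤ mult R m (α / (q : Ω) ^ k) := by
    intro α hα h2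
    rw [← (h1 α hα).1 h2]
    exact rkA_le_right hq hR m k α
  refine ⟨fun α hα h2 => rkA_inj hR ((h1 α hα).1 h2), fun β hβ h2 => ?_, fun α hα h2 => ?_⟩
  · have hβ0 := evs_ne_zero hq hβ
    -- the dual eigenvalue
    have hα' : (q : Ω) ^ m / β ∈ evs hR m := by
      rw [mem_evs, mult_dual hq hR]
      exact mem_evs.1 hβ
    have h3 : (k : ℝ) - 1 < x ((q : Ω) ^ m / β) := by
      rw [hx.dual β hβ]
      linarith
    have h4 := hle _ hα' h3
    have h5 : (q : Ω) ^ m / β / (q : Ω) ^ k = (q : Ω) ^ m / (β * (q : Ω) ^ k) := by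
      rw [div_div]
    rw [mult_dual hq hR, h5, mult_dual hq hR] at h4
    have h6 : β * (q : Ω) ^ k ∈ evs hR m := by
      rw [mem_evs]
      have := mem_evs.1 hβ
      omega
    have h7 : β * (q : Ω) ^ k / (q : Ω) ^ k = β := mul_div_cancel_right₀ β hqk
    have h8 : x β = x (β * (q : Ω) ^ k) - 2 * k := by
      have := hx.step k _ h6
      rwa [h7] at this
    have h9 := (h1 _ h6).2 (by linarith)
    rw [h7] at h9
    refine ⟨h6, fun u hu => ?_⟩
    have h10 : (R.pc (m, β * (q : Ω) ^ k)).map (R.N ^ k) ≤ R.pc (m, β) := by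
      rintro _ ⟨v, hv, rfl⟩
      have := Npow_pc hq hR m k _ v hv
      rwa [h7] at this
    have h11 : (R.pc (m, β * (q : Ω) ^ k)).map (R.N ^ k) = R.pc (m, β) :=
      Submodule.eq_of_le_of_finrank_eq h10 h9
    rw [← h11] at hu
    obtain ⟨v, hv, hvu⟩ := hu
    exact ⟨v, hv, hvu⟩
  · rw [mem_evs]
    have h3 := hle α hα h2
    have h4 := mem_evs.1 hα
    omega

/-- If `N ^ k` has the properties for all `k`, the positions are integers. -/
theorem int_of_full [IsAlgClosed Ω] (hq : 1 < q) (hR : R.IsCoh q) {m : ℕ} {x : Ω → ℝ}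
    (hx : IsPos hR m x) (h : ∀ k : ℕ, 1 ≤ k → Full hR m k x) :
    ∀ α ∈ evs hR m, ∃ n : ℤ, x α = n := by
  classical
  by_contra hcon
  push Not at hcon
  obtain ⟨α₀, hα₀, hn₀⟩ := hcon
  have hne : ((evs hR m).filter (fun α => ∀ n : ℤ, x α ≠ n)).Nonempty :=
    ⟨α₀, Finset.mem_filter.2 ⟨hα₀, hn₀⟩⟩
  obtain ⟨α₁, hα₁, hmax⟩ := Finset.exists_max_image _ (fun α => |x α|) hne
  rw [Finset.mem_filter] at hα₁
  -- we may assume that the position is positive
  obtain ⟨α, hα, hn, habs, hpos⟩ : ∃ α ∈ evs hR m, (∀ n : ℤ, x α ≠ n) ∧ |x α| = |x α₁| ∧ 0 < x α := by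
    have h0 : x α₁ ≠ 0 := by
      have := hα₁.2 0
      simpa using this
    rcases lt_or_gt_of_ne h0 with h1 | h1
    · refine ⟨(q : Ω) ^ m / α₁, ?_, ?_, ?_, ?_⟩
      · rw [mem_evs, mult_dual hq hR]
        exact mem_evs.1 hα₁.1
      · intro n hn
        rw [hx.dual α₁ hα₁.1] at hn
        exact hα₁.2 (-n) (by push_cast; linarith)
      · rw [hx.dual α₁ hα₁.1, abs_neg]
      · rw [hx.dual α₁ hα₁.1]
        linarith
    · exact ⟨α₁, hα₁.1, hα₁.2, rfl, h1⟩
  let k : ℕ := ⌈x α⌉₊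
  have hk1 : x α ≤ k := Nat.le_ceil _
  have hk2 : (k : ℝ) < x α + 1 := Nat.ceil_lt_add_one hpos.le
  have hk0 : 1 ≤ k := Nat.ceil_pos.2 hpos
  have hk3 : x α ≠ k := by
    have := hn (k : ℤ)
    exact_mod_cast this
  have hk4 : x α < k := lt_of_le_of_ne hk1 hk3
  have h2 := (h k hk0).ev α hα (by linarith)
  have h3 := hx.step k α hα
  have h4 : α / (q : Ω) ^ k ∈ (evs hR m).filter (fun α => ∀ n : ℤ, x α ≠ n) := by
    refine Finset.mem_filter.2 ⟨h2, fun n hn' => ?_⟩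
    rw [h3] at hn'
    exact hn (n + 2 * k) (by push_cast; linarith)
  have h5 := hmax _ h4
  rw [← habs, h3, abs_of_pos hpos, abs_of_neg (by linarith)] at h5
  linarith

end Pool.Agent.U865.WM
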