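import Pool.Agent.U865.WM.Slope
import Pool.Agent.Y143.Mon

/-!
# Slope purity
-/

set_option autoImplicit false

open Module

namespace Pool.Agent.U865.WM

universe u v w

open Pool.Agent.Y143 Pool.Agent.Y163.MW Pool.Agent.Y163.MX Pool.Agent.Y136.UB

section

variable {Ω : Type w} [Field Ω]

/-- The part of `H^m` of slope `(m + y) / 2`. -/
noncomputable def slopePart (R : Coh.{v, w} Ω) (val : Ω → ℝ) (m : ℕ) (y : ℝ) : Submodule Ω R.V :=
  ⨆ (α : Ω) (_ : 2 * val α - m = y), R.gr m ⊓ R.F.maxGenEigenspace α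

/-- `N ^ k` maps the part of `H^m` of slope `(m + y) / 2` to the part of slope `(m + y) / 2 - k`; this
map is injective if `y > k - 1`, and it is surjective if `y < k + 1`. -/
structure SlopeIso (R : Coh.{v, w} Ω) (val : Ω → ℝ) (m k : ℕ) : Prop where
  map : ∀ y : ℝ, ∀ v ∈ slopePart R val m y, (R.N ^ k) v ∈ slopePart R val m (y - 2 * k)
  inj : ∀ y : ℝ, (k : ℝ) - 1 < y → ∀ v ∈ slopePart R val m y, (R.N ^ k) v = 0 → v = 0
  surj : ∀ y : ℝ, y < (k : ℝ) + 1 → ∀ u ∈ slopePart R val m (y - 2 * k),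
    ∃ v ∈ slopePart R val m y, (R.N ^ k) v = u

/-- The eigenvalues of `F` on the graded piece `M_s / M_(s - 1)` of the monodromy filtration `M` of
`H^m` have slope `(m + s) / 2`. -/
def SlopePure (R : Coh.{v, w} Ω) (val : Ω → ℝ) (m : ℕ) : Prop :=
  ∃ M : ℤ → Submodule Ω R.V, IsMonodromyFiltrationOn (R.gr m) R.N M ∧
    ∀ (s : ℤ) (α : Ω) (x : R.V), x ∈ M s → x ∉ M (s - 1) → R.F x - α • x ∈ M (s - 1) →
      2 * val α = m + s

end

variable {Ω : Type w} [Field Ω] [CharZero Ω] {R : Coh.{v, w} Ω} {q : ℕ}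

/-- Injectivity on a sum of generalized eigenspaces. -/
lemma inj_part (hq : 1 < q) (hR : R.IsCoh q) {m k : ℕ} {p : Ω → Prop}
    (h : ∀ α, p α → ∀ x ∈ R.pc (m, α), (R.N ^ k) x = 0 → x = 0) :
    ∀ x ∈ (⨆ (α : Ω) (_ : p α), R.pc (m, α) : Submodule Ω R.V), (R.N ^ k) x = 0 → x = 0 := by
  classical
  have hq0 : (q : Ω) ≠ 0 := Nat.cast_ne_zero.2 (by omega)
  intro x hx h0
  obtain ⟨f, hf, hfx⟩ := (Submodule.mem_iSup_iff_exists_finsupp _ _).1 hx
  have hf' : ∀ α, f α ∈ R.pc (m, α) ∧ (¬ p α → f α = 0) := by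
    intro α
    have h1 := hf α
    by_cases hα : p α
    · rw [iSup_pos hα] at h1
      exact ⟨h1, fun h2 => absurd hα h2⟩
    · rw [iSup_neg hα, Submodule.mem_bot] at h1
      rw [h1]
      exact ⟨Submodule.zero_mem _, fun _ => rfl⟩
  have h2 : ∑ α ∈ f.support, (R.N ^ k) (f α) = 0 := by
    rw [← map_sum, ← h0, ← hfx]
    rfl
  have hind : iSupIndep (fun α : Ω => R.pc (m, α / (q : Ω) ^ k)) := by
    refine (Coh.indep_pc hR).comp (f := fun α : Ω => (m, α / (q : Ω) ^ k)) ?_
    intro a b hab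
    exact (div_left_inj' (pow_ne_zero _ hq0)).1 (Prod.mk.inj hab).2
  rw [iSupIndep_iff_finsetSum_eq_zero_imp_eq_zero] at hind
  have h3 := hind f.support (fun α => (R.N ^ k) (f α))
    (fun α _ => Npow_pc hq hR m k α _ (hf' α).1) h2
  have h4 : ∀ α ∈ f.support, f α = 0 := by
    intro α hα
    by_cases hw : p α
    · exact h α hw _ (hf' α).1 (h3 α hα)
    · exact (hf' α).2 hw
  rw [← hfx]
  exact Finset.sum_eq_zero h4

lemma pc_bot (hR : R.IsCoh q) {m : ℕ} {α : Ω} (h : α ∉ evs hR m) : R.pc (m, α) = ⊥ := by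
  have := hR.finite
  rw [mem_evs, not_not] at h
  exact Submodule.finrank_eq_zero.1 h

theorem slopeIso_of_full (hq : 1 < q) (hR : R.IsCoh q) {m k : ℕ} {val : Ω → ℝ}
    (hv : IsVal q val) (h : Full hR m k (vpos val m)) : SlopeIso R val m k := by
  have hq0 : (q : Ω) ≠ 0 := Nat.cast_ne_zero.2 (by omega)
  refine ⟨fun y v hv' => ?_, fun y hy => ?_, fun y hy => ?_⟩
  · have h1 : slopePart R val m y ≤ (slopePart R val m (y - 2 * k)).comap (R.N ^ k) := by
      refine iSup₂_le fun α hα => ?_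
      by_cases he : α ∈ evs hR m
      · intro z hz
        refine Submodule.mem_iSup_of_mem (α / (q : Ω) ^ k) (Submodule.mem_iSup_of_mem ?_
          (Npow_pc hq hR m k α z hz))
        have h2 := (isPos_vpos hq hR hv m).step k α he
        unfold vpos at h2
        rw [h2, hα]
      · have h2 : R.gr m ⊓ R.F.maxGenEigenspace α = ⊥ := pc_bot hR he
        rw [h2]
        exact bot_le
    exact h1 hv'
  · refine inj_part hq hR (p := fun α => 2 * val α - m = y) fun α hα => ?_
    by_cases he : α ∈ evs hR m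
    · refine h.inj α he ?_
      unfold vpos
      rw [hα]
      exact hy
    · intro x hx _
      rw [pc_bot hR he, Submodule.mem_bot] at hx
      exact hx
  · have h1 : slopePart R val m (y - 2 * k) ≤ (slopePart R val m y).map (R.N ^ k) := by
      refine iSup₂_le fun β hβ => ?_
      by_cases he : β ∈ evs hR m
      · have h2 : vpos val m β < 1 - (k : ℝ) := by
          unfold vpos
          rw [hβ]
          linarith
        obtain ⟨h3, h4⟩ := h.surj β he h2
        intro u hu
        obtain ⟨v, hv', hvu⟩ := h4 u hu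
        refine ⟨v, ?_, hvu⟩
        refine Submodule.mem_iSup_of_mem (β * (q : Ω) ^ k) (Submodule.mem_iSup_of_mem ?_ hv')
        have h5 := (isPos_vpos hq hR hv m).step k _ h3
        rw [mul_div_cancel_right₀ β (pow_ne_zero _ hq0)] at h5
        unfold vpos at h5
        rw [hβ] at h5
        linarith
      · have h2 : R.gr m ⊓ R.F.maxGenEigenspace β = ⊥ := pc_bot hR he
        rw [h2]
        exact bot_le
    intro u hu
    obtain ⟨v, hv', hvu⟩ := h1 hu
    exact ⟨v, hv', hvu⟩

/-- Slope purity from the properties of all the powers of `N`. -/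
theorem slopePure_of_full [IsAlgClosed Ω] (hq : 1 < q) (hR : R.IsCoh q) {m : ℕ} {val : Ω → ℝ}
    (hv : IsVal q val) (h : ∀ k : ℕ, 1 ≤ k → Full hR m k (vpos val m)) : SlopePure R val m := by
  have := hR.finite
  have hq0 : (q : Ω) ≠ 0 := Nat.cast_ne_zero.2 (by omega)
  have hpos := isPos_vpos hq hR hv m
  have hint := int_of_full hq hR hpos h
  let W : ℤ → Submodule Ω R.V := fun c => slopePart R val m c
  have hpc : ∀ α, R.gr m ⊓ R.F.maxGenEigenspace α = R.pc (m, α) := fun α => rfl
  have hle : ∀ y : ℝ, slopePart R val m y ≤ R.gr m := fun y => iSup₂_le fun _ _ => inf_le_left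
  have hindR : iSupIndep (fun y : ℝ => slopePart R val m y) := by
    have h1 : iSupIndep (fun α => R.pc (m, α)) :=
      (Coh.indep_pc hR).comp (f := fun α : Ω => (m, α)) (fun _ _ h => (Prod.mk.inj h).2)
    exact iSupIndep_fib h1 (fun α => 2 * val α - m)
  have hind : iSupIndep W := hindR.comp (f := fun c : ℤ => (c : ℝ)) Int.cast_injective
  have hsup : ⨆ c, W c = R.gr m := by
    apply le_antisymm
    · exact iSup_le fun c => hle c
    · rw [gr_eq_evs hR m]
      refine iSup₂_le fun α hα => ?_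
      obtain ⟨n, hn⟩ := hint α hα
      exact le_iSup_of_le n (le_iSup₂_of_le α hn le_rfl)
  have hF : ∀ c, ∀ x ∈ W c, R.F x ∈ W c := by
    intro c x hx
    have h1 : W c ≤ (W c).comap R.F := by
      refine iSup₂_le fun α hα => ?_
      intro y hy
      refine Submodule.mem_iSup_of_mem α (Submodule.mem_iSup_of_mem hα ?_)
      obtain ⟨h1, h2⟩ := Submodule.mem_inf.1 hy
      exact Submodule.mem_inf.2 ⟨hR.F_gr m y h1, gen_map R.F (fun _ => rfl) h2⟩
    exact h1 hx
  have hN : ∀ c, ∀ x ∈ W c, R.N x ∈ W (c - 2) := by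
    intro c x hx
    have h1 : W c ≤ (W (c - 2)).comap R.N := by
      refine iSup₂_le fun α hα => ?_
      by_cases he : α ∈ evs hR m
      · intro y hy
        refine Submodule.mem_iSup_of_mem (α / q) (Submodule.mem_iSup_of_mem ?_
          (N_pc hq hR m α y hy))
        have h2 := hpos.step 1 α he
        rw [pow_one] at h2
        unfold vpos at h2
        rw [h2, hα]
        push_cast
        ring
      · rw [hpc, pc_bot hR he]
        exact bot_le
    exact h1 hx
  have heig : ∀ c α x, x ∈ W c → x ≠ 0 → R.F x = α • x → 2 * val α - (m : ℝ) = (c : ℝ) := by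
    intro c α x hx h0 hFx
    have hxm := hle c hx
    have h1 : x ∈ slopePart R val m (2 * val α - m) := by
      refine Submodule.mem_iSup_of_mem α (Submodule.mem_iSup_of_mem rfl ?_)
      refine Submodule.mem_inf.2 ⟨hxm, mem_gen.2 ⟨1, ?_⟩⟩
      rw [pow_one, LinearMap.sub_apply, Module.algebraMap_end_apply, hFx, sub_self]
    by_contra hne
    have h2 := hindR.pairwiseDisjoint hne
    exact h0 (Submodule.disjoint_def.1 h2 x h1 hx)
  have hcen : Centred W R.N := by
    intro a
    rcases Nat.eq_zero_or_pos a with ha | ha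
    · subst ha
      refine ⟨fun x _ hx => by simpa using hx, fun y hy => ⟨y, ?_, by simp⟩⟩
      simpa using hy
    · have h1 := slopeIso_of_full hq hR hv (h a ha)
      refine ⟨fun x hx h0 => h1.inj (((a : ℕ) : ℤ) : ℝ) (by push_cast; linarith) x hx h0,
        fun y hy => ?_⟩
      have h2 : y ∈ slopePart R val m ((((a : ℕ) : ℤ) : ℝ) - 2 * a) := by
        have h3 : y ∈ slopePart R val m ((-((a : ℕ) : ℤ) : ℤ) : ℝ) := hy
        have h4 : (((a : ℕ) : ℤ) : ℝ) - 2 * a = ((-((a : ℕ) : ℤ) : ℤ) : ℝ) := by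
          push_cast
          ring
        rw [h4]
        exact h3
      exact h1.surj _ (by push_cast; linarith) y h2
  obtain ⟨M, hM, hMp⟩ := (Pool.Agent.Y48.MW.t_G Ω R.V (R.gr m) W R.F R.N (q : Ω)
    (fun c α => 2 * val α - (m : ℝ) = (c : ℝ)) hsup hind hF hN hq0 (fun x _ => hR.N_F x) heig
    (fun c c' α h h' => by
      have := h.symm.trans h'
      exact_mod_cast this)).2 hcen
  refine ⟨M, hM, fun s α x h1 h2 h3 => ?_⟩
  have := hMp s α x h1 h2 h3
  linarith

/-- The monodromy filtration is unique. -/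
lemma mon_unique {S : Submodule Ω R.V} {N : Module.End Ω R.V} {M M' : ℤ → Submodule Ω R.V}
    (h : IsMonodromyFiltrationOn S N M) (h' : IsMonodromyFiltrationOn S N M') (s : ℤ) :
    M s = M' s := by
  apply le_antisymm
  · intro x hx
    exact h.functorial h' LinearMap.id (fun _ h => h) (c := 1) one_ne_zero
      (fun x _ => by rw [one_smul]; rfl) s hx
  · intro x hx
    exact h'.functorial h LinearMap.id (fun _ h => h) (c := 1) one_ne_zero
      (fun x _ => by rw [one_smul]; rfl) s hx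

/-- Slope purity and mw purity together: the slopes are the halves of the weights. -/
theorem weight_eq_slope (hR : R.IsCoh q) {m : ℕ} {val : Ω → ℝ}
    (h : R.MWPure q m) (h' : SlopePure R val m) :
    ∀ α, mult R m α ≠ 0 → ∃ w : ℤ, IsWeilNumber q w α ∧ 2 * val α = w := by
  intro α hα
  have := hR.finite
  obtain ⟨M, hM, hMp⟩ := h
  obtain ⟨M', hM', hMp'⟩ := h'
  -- an eigenvector
  have h1 : R.pc (m, α) ≠ ⊥ := by
    intro hbot
    apply hα
    show finrank Ω (R.pc (m, α)) = 0
    rw [hbot, finrank_bot]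
  obtain ⟨z, hz, hz0⟩ := Submodule.exists_mem_ne_zero_of_ne_bot h1
  obtain ⟨x, hx, hx0, hFx⟩ := exists_eigen_of_gen (hR.F_gr m) (Submodule.mem_inf.1 hz).1
    (Submodule.mem_inf.1 hz).2 hz0
  -- its position in the filtration
  obtain ⟨a, ha⟩ := hM.bot
  obtain ⟨b, hb⟩ := hM.top
  have h2 : ∃ n : ℕ, x ∈ M (a + n) := by
    refine ⟨(b - a).toNat, ?_⟩
    apply hM.mono (show b ≤ a + ((b - a).toNat : ℤ) by have := Int.self_le_toNat (b - a); omega)
    rw [hb]
    exact hx
  classical
  let n := Nat.find h2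
  have hn : x ∈ M (a + n) := Nat.find_spec h2
  have hn0 : n ≠ 0 := by
    intro h3
    rw [h3, Nat.cast_zero, add_zero, ha, Submodule.mem_bot] at hn
    exact hx0 hn
  have hn1 : x ∉ M (a + n - 1) := by
    intro h3
    have h4 := Nat.find_min h2 (m := n - 1) (by omega)
    apply h4
    rwa [show a + ((n - 1 : ℕ) : ℤ) = a + n - 1 by omega]
  have hz : R.F x - α • x ∈ M (a + n - 1) := by
    rw [hFx, sub_self]
    exact Submodule.zero_mem _
  have h5 := hMp (a + n) α x hn hn1 hz
  have h6 := hMp' (a + n) α x (by rwa [← mon_unique hM hM']) (by rwa [← mon_unique hM hM'])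
    (by rw [← mon_unique hM hM']; exact hz)
  refine ⟨_, h5, ?_⟩
  rw [h6]
  push_cast
  ring

end Pool.Agent.U865.WM
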