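import Pool.Agent.U865.WM.Indep2

/-!
# The cohomology theories for all primes `ℓ`
-/

set_option autoImplicit false

open Module

namespace Pool.Agent.U865.WM

universe u v w

open Pool.Agent.H914 Pool.Agent.Y143 Pool.Agent.Y163.MW Pool.Agent.Y163.MX

/-- The data of the cohomology theories for the smooth proper varieties over the `p`-adic field `K`:
for every prime number `ℓ` the cohomology with coefficients in the algebraic closure `Ω ℓ` of `ℚ_ℓ`
(the `ℓ`-adic étale cohomology for `ℓ ≠ p`, with the monodromy operator; the Hyodo-Kato cohomology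
for `ℓ = p`, with the linear Frobenius); the Hodge numbers; the `p`-adic valuation. -/
structure LTheory (K : Type u) [Field K] (Ω : Nat.Primes → Type w) [∀ ℓ, Field (Ω ℓ)]
    (p : Nat.Primes) where
  /-- the cohomology -/
  H : ∀ ℓ, SmVar.{u} K → Coh.{v, w} (Ω ℓ)
  /-- the Hodge numbers `hodge X m a = h^(a, m - a)(X)` -/
  hodge : SmVar.{u} K → ℕ → ℕ → ℕ
  /-- the valuation -/
  val : Ω p → ℝ

/-- The known properties, for a local field `K` of characteristic zero with residue field with `q`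
elements: those of the `ℓ`-adic cohomology for all `ℓ` (including `p`); the Newton polygon of the
Hyodo-Kato cohomology lies above the Hodge polygon; the alternating product of the characteristic
polynomials of the Frobenius is a rational function with rational coefficients which is
independent of `ℓ` (Ochiai, T. Saito). -/
structure LTheory.IsLocal {K : Type u} [Field K] {Ω : Nat.Primes → Type w} [∀ ℓ, Field (Ω ℓ)]
    [∀ ℓ, CharZero (Ω ℓ)] {p : Nat.Primes} (T : LTheory.{u, v, w} K Ω p) (q : ℕ) : Prop where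
  coh : ∀ ℓ X, (T.H ℓ X).IsCoh q
  val : IsVal q T.val
  polygons : ∀ X m, NewtonAboveHodge (T.H p X) T.val m (T.hodge X m)
  indep : ∀ X, ∃ P Q : Polynomial ℚ, P ≠ 0 ∧ Q ≠ 0 ∧ ∀ ℓ, AltEq (T.H ℓ X) (2 * X.dim) P Q

/-- For all `j ≠ m` the characteristic polynomial of the Frobenius on `H^j(X)` has rational
coefficients and is independent of `ℓ` (this is the case, over a suitable finite extension of `K`,
if the groups `H^j(X)` with `j ≠ m` are generated by the classes of algebraic cycles). -/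
def IndepOutside {K : Type u} [Field K] {Ω : Nat.Primes → Type w} [∀ ℓ, Field (Ω ℓ)]
    [∀ ℓ, CharZero (Ω ℓ)] {p : Nat.Primes} (T : LTheory.{u, v, w} K Ω p) (X : SmVar.{u} K)
    (m : ℕ) : Prop :=
  ∀ j, j ≤ 2 * X.dim → j ≠ m →
    ∃ C : Polynomial ℚ, ∀ ℓ, charP (T.H ℓ X) j = C.map (algebraMap ℚ (Ω ℓ))

variable {K : Type u} [Field K] {Ω : Nat.Primes → Type w} [∀ ℓ, Field (Ω ℓ)]
  [∀ ℓ, CharZero (Ω ℓ)] [∀ ℓ, IsAlgClosed (Ω ℓ)] {p : Nat.Primes} {T : LTheory.{u, v, w} K Ω p}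
  {q : ℕ}

omit [∀ ℓ, IsAlgClosed (Ω ℓ)] in
theorem exists_char (hT : T.IsLocal q) {X : SmVar.{u} K} {m : ℕ} (hm : m ≤ 2 * X.dim)
    (hX : IndepOutside T X m) :
    ∃ C : Polynomial ℚ, ∀ ℓ, charP (T.H ℓ X) m = C.map (algebraMap ℚ (Ω ℓ)) := by
  obtain ⟨P, Q, hP, hQ, hPQ⟩ := hT.indep X
  have : Nonempty Nat.Primes := ⟨p⟩
  exact indep_of_others (fun ℓ => T.H ℓ X) (fun ℓ => hT.coh ℓ X) hm hP hQ hPQ hX

/-- The ranks for one `ℓ` are bounded by the slopes. -/
theorem weight_le_slope_sys (hq : 1 < q) (hT : T.IsLocal q) {X : SmVar.{u} K} {m : ℕ}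
    {C : Polynomial ℚ} (hC : ∀ ℓ, charP (T.H ℓ X) m = C.map (algebraMap ℚ (Ω ℓ))) (ℓ : Nat.Primes)
    (t : ℤ) : (weightExcess (T.H ℓ X) q m t : ℝ) ≤ slopeExcess (T.H p X) T.val m t := by
  have h1 : weightExcess (T.H ℓ X) q m t = weightExcess (T.H p X) q m t := by
    rw [weightExcess_roots hq (hT.coh ℓ X) (hC ℓ), weightExcess_roots hq (hT.coh p X) (hC p)]
  rw [h1]
  exact (weight_le_slope hq (hT.coh p X) ⟨C, hC p⟩ hT.val t).1

theorem rank_le_slope_sys (hq : 1 < q) (hT : T.IsLocal q) {X : SmVar.{u} K} {m : ℕ}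
    {C : Polynomial ℚ} (hC : ∀ ℓ, charP (T.H ℓ X) m = C.map (algebraMap ℚ (Ω ℓ))) (ℓ : Nat.Primes)
    (t M : ℕ) : (rankSumFrom (T.H ℓ X) m t M : ℝ) ≤ slopeExcess (T.H p X) T.val m t := by
  have h1 := rankSum_le hq (hT.coh ℓ X) m t M
  have h2 := weight_le_slope_sys hq hT hC ℓ t
  have h3 : (rankSumFrom (T.H ℓ X) m t M : ℝ) ≤ (weightExcess (T.H ℓ X) q m t : ℝ) := by
    exact_mod_cast h1
  exact h3.trans (by exact_mod_cast h2)

/-- The criterion. -/
theorem crit (hq : 1 < q) (hT : T.IsLocal q) {X : SmVar.{u} K} {m : ℕ}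
    {C : Polynomial ℚ} (hC : ∀ ℓ, charP (T.H ℓ X) m = C.map (algebraMap ℚ (Ω ℓ)))
    (ℓ : Nat.Primes) :
    (∀ k, rk (T.H ℓ X) m k ≤ rootsGE C q (m + k) + rootsGE C q (m + k + 1)) ∧
      ((T.H ℓ X).MWPure q m ↔ ∀ k : ℕ, 1 ≤ k →
        rk (T.H ℓ X) m k = rootsGE C q (m + k) + rootsGE C q (m + k + 1)) := by
  have h1 : ∀ k : ℕ, numGE (T.H ℓ X) q m k + numGE (T.H ℓ X) q m (k + 1) =
      rootsGE C q (m + k) + rootsGE C q (m + k + 1) := by
    intro k
    rw [numGE_roots hq (hT.coh ℓ X) (hC ℓ), numGE_roots hq (hT.coh ℓ X) (hC ℓ), add_assoc]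
  refine ⟨fun k => ?_, ?_⟩
  · rw [← h1]
    exact rk_le_num hq (hT.coh ℓ X) m k
  · rw [mw_iff_rk hq (hT.coh ℓ X) m]
    refine forall_congr' fun k => forall_congr' fun _ => ?_
    rw [h1]

/-- The comparison of two prime numbers. -/
theorem compare (hq : 1 < q) (hT : T.IsLocal q) {X : SmVar.{u} K} {m : ℕ}
    {C : Polynomial ℚ} (hC : ∀ ℓ, charP (T.H ℓ X) m = C.map (algebraMap ℚ (Ω ℓ)))
    {ℓ₀ : Nat.Primes} (h : (T.H ℓ₀ X).MWPure q m) (ℓ : Nat.Primes) :
    (∀ k, rk (T.H ℓ X) m k ≤ rk (T.H ℓ₀ X) m k) ∧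
      ((T.H ℓ X).MWPure q m ↔ ∀ k, rk (T.H ℓ X) m k = rk (T.H ℓ₀ X) m k) := by
  obtain ⟨a1, a2⟩ := crit hq hT hC ℓ
  obtain ⟨b1, b2⟩ := crit hq hT hC ℓ₀
  have h1 := b2.1 h
  have h0 : ∀ ℓ, rk (T.H ℓ X) m 0 = C.natDegree := by
    intro ℓ
    have hR := hT.coh ℓ X
    have := hR.finite
    have e1 : rk (T.H ℓ X) m 0 = finrank (Ω ℓ) ((T.H ℓ X).gr m) := by
      unfold rk
      rw [pow_zero, Module.End.one_eq_id, Submodule.map_id]
    have e2 : C.natDegree = (charP (T.H ℓ X) m).natDegree := by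
      rw [hC ℓ, Polynomial.natDegree_map]
    rw [e1, e2]
    obtain ⟨I, _, b, p', hb⟩ := exists_basis hR
    have e3 : (finrank (Ω ℓ) ((T.H ℓ X).gr m) : ℝ) = ∑ α ∈ evs hR m, (mult (T.H ℓ X) m α : ℝ) := by
      have e4 : finrank (Ω ℓ) ((T.H ℓ X).gr m) = Nat.card {i // (p' i).1 = m} :=
        finrank_gr hR.isInternal.submodule_iSupIndep b (fun i => (p' i).1)
          (fun i => (Submodule.mem_inf.1 (hb i)).1) m
      have e5 := finsum_mult hR hb m (fun _ => (1 : ℝ))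
      rw [finsum_evs hR m (fun _ => (1 : ℝ))] at e5
      simp only [one_mul, Finset.sum_const, Finset.card_univ, nsmul_eq_mul, mul_one] at e5
      rw [e4, e5, Nat.card_eq_fintype_card]
    have e6 : ((charP (T.H ℓ X) m).natDegree : ℝ) = ∑ α ∈ evs hR m, (mult (T.H ℓ X) m α : ℝ) := by
      have e7 : charP (T.H ℓ X) m = ∏ α ∈ evs hR m,
          (Polynomial.X - Polynomial.C α) ^ mult (T.H ℓ X) m α := by
        unfold charP
        refine finprod_eq_prod_of_mulSupport_subset _ ?_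
        intro α hα
        rw [Finset.mem_coe, mem_evs]
        intro h0
        apply hα
        simp only
        rw [h0, pow_zero]
      rw [e7, Polynomial.natDegree_prod_of_monic _ _
        (fun α _ => (Polynomial.monic_X_sub_C α).pow _)]
      push_cast
      refine Finset.sum_congr rfl fun α _ => ?_
      rw [Polynomial.natDegree_pow, Polynomial.natDegree_X_sub_C, mul_one]
    rw [← e6] at e3
    exact_mod_cast e3
  refine ⟨fun k => ?_, ?_⟩
  · rcases Nat.eq_zero_or_pos k with hk | hk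
    · rw [hk, h0 ℓ, h0 ℓ₀]
    · rw [h1 k hk]
      exact a1 k
  · rw [a2]
    constructor
    · intro h2 k
      rcases Nat.eq_zero_or_pos k with hk | hk
      · rw [hk, h0 ℓ, h0 ℓ₀]
      · rw [h1 k hk]
        exact h2 k hk
    · intro h2 k hk
      rw [h2 k, h1 k hk]

end Pool.Agent.U865.WM
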